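import Pool.Agent.Run7.h969.WQ.Lq

/-!
Approximate solutions from profiles, with the norms of `L^q`: assembly.
-/

set_option autoImplicit false

open MeasureTheory Set Filter Topology
open scoped ContDiff ComplexConjugate NNReal

namespace Pool.Agent.Run7.h969.WQ

open H459R3.NS Pool.Agent.Run7.h782 Pool.Agent.Run7.h782.GD Pool.Agent.Run7.h782.GS
open Pool.Agent.Run7.h969.GG Pool.Agent.Run7.h782.WS Pool.Agent.Run7.h782.WQ
open Pool.Agent.Run7.h969.WS

section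
variable {J : ℕ} {n : Fin J → K3} {s : Fin J → Cf} {P : Finset K3} {Λ nm : ℝ} {N K : ℕ}

/-- The norms of the waves of one family. -/
noncomputable def yq (s : Fin J → Cf) (N : ℕ) (e q : ℝ) (i : Fin (N * J)) : ℝ :=
  2 * fp q (ss s N i) ^ (1 / q) + e * N0 (ss s N i)

theorem yq_nonneg {e : ℝ} (he : 0 ≤ e) (q : ℝ) (i : Fin (N * J)) : 0 ≤ yq s N e q i := by
  have h1 : 0 ≤ fp q (ss s N i) ^ (1 / q) := Real.rpow_nonneg (fp_nonneg _ _) _
  have h2 := N0_nonneg (ss s N i)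
  unfold yq
  positivity

theorem sum_yq_sq (hN : 0 < N) {e q : ℝ} (hq : 0 < q) :
    ∑ i, yq s N e q i ^ 2 ≤ 8 * (∑ j, fp q (s j) ^ (2 / q)) + 2 * e ^ 2 * ∑ j, N0 (s j) ^ 2 := by
  have hNr : (0 : ℝ) < N := by exact_mod_cast hN
  have h1 : ∀ i, yq s N e q i ^ 2
      ≤ 8 * (fp q (ss s N i) ^ (1 / q)) ^ 2 + 2 * e ^ 2 * N0 (ss s N i) ^ 2 := by
    intro i
    unfold yq
    nlinarith [sq_nonneg (2 * fp q (ss s N i) ^ (1 / q) - e * N0 (ss s N i))]
  refine (Finset.sum_le_sum fun i _ => h1 i).trans (le_of_eq ?_)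
  rw [Finset.sum_add_distrib, ← Finset.mul_sum, ← Finset.mul_sum, sum_N0_sq hN]
  congr 2
  rw [sum_fp]
  have h2 : ∀ (l : Fin N) (j : Fin J), (fp q (ss s N (finProdFinEquiv (l, j))) ^ (1 / q)) ^ 2
      = 1 / N * fp q (s j) ^ (2 / q) := by
    intro l j
    rw [ss_fp, fp_smul_root hq (by positivity), mul_pow, div_pow, Real.sq_sqrt hNr.le, one_pow,
      sq_root (fp_nonneg _ _)]
  simp_rw [h2]
  rw [Finset.sum_const, Finset.card_univ, Fintype.card_fin, nsmul_eq_mul, ← Finset.mul_sum]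
  field_simp

/-- The norm of the field at one time. -/
theorem fp_v (hQ : StmQ0) (D : Dat (nn n N) (ss s N) P 0 Λ nm) {ν : ℝ} (hν : 0 < ν) (hK : 0 < K)
    (hKΛ : 2 * Λ ≤ K) {q : ℝ} (hq : 1 ≤ q) {t : ℝ} (ht : 0 ≤ t) :
    fp q (lo ν (nn n N) (ss s N) 0 K t + hi ν (nn n N) (ss s N) K t) ^ (1 / q)
      ≤ 3 * Q0 (ss s N) 0 * Real.exp (-(ls ν K * t))
        + ∑ i, yq s N (36 * Λ / K) q i
          * (rj ν (nn n N) K i * Real.exp (-(rj ν (nn n N) K i ^ 2 * t))) := by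
  have hQ' := hQ
  obtain ⟨-, -, -, -, -, h6, h7, -⟩ := hQ
  have hq0 : 0 < q := by linarith
  have hKr : (0 : ℝ) < K := by exact_mod_cast hK
  have hl1 : L1 (lo ν (nn n N) (ss s N) 0 K t) :=
    L1.lo' (ν := ν) (n := nn n N) (N := K) (lq D) (lz D) t
  have hh1 : L1 (hi ν (nn n N) (ss s N) K t) := L1.hi' (ν := ν) (N := K) (lw D) t
  refine (h7 q _ _ hq hl1 hh1).trans (add_le_add ?_ ?_)
  · refine (fp_le_N0 h6 hq0 hl1).trans ?_
    have h1 := N0_lo D hν hK ht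
    calc 3 * N0 (lo ν (nn n N) (ss s N) 0 K t)
        ≤ 3 * (Q0 (ss s N) 0 * Real.exp (-(ls ν K * t))) :=
          mul_le_mul_of_nonneg_left h1 (by norm_num)
      _ = _ := by ring
  · rw [hi]
    refine (fp_sum h7 hq Finset.univ fun i _ => (lw D i).smul _).trans ?_
    refine Finset.sum_le_sum fun i _ => ?_
    have h1 := am_nonneg D hν hK t i
    rw [fp_smul_root hq0 h1, mul_comm]
    refine mul_le_mul_of_nonneg_right ?_ h1
    exact fp_wv hQ' hq (D.sP i) D.Λ1 (D.kdn i) (lm_ge' D hK i) hKΛ hKr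

end

/-- **Piece AppQ.** -/
theorem appQ (hQ0 : StmQ0) (hAl : StmAlWQ) : StmAppQ := by
  classical
  obtain ⟨C, hC, alw⟩ := hAl
  have hpi := Real.pi_pos
  refine ⟨fun p => 72 + (2 * Real.pi) ^ p * C p, fun p => by
    have := hC p
    positivity, ?_⟩
  intro ν hν E hE J n s P hJ hJ9 hn0 hsP hsh hkd
  have hsν := Real.sqrt_pos.2 hν
  set S : ℝ := ∑ j, N0 (s j) with hS
  set S2 : ℝ := ∑ j, N0 (s j) ^ 2 with hS2
  have hS0 : 0 ≤ S := Finset.sum_nonneg fun j _ => N0_nonneg _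
  have hS20 : 0 ≤ S2 := Finset.sum_nonneg fun j _ => sq_nonneg _
  refine ⟨64 * S2 + 2 + 128 * ν * S2, ?_⟩
  intro δ hδ
  set Λ : ℝ := ∑ p ∈ P, len p with hΛ
  set nm : ℝ := ∑ j, len (n j) with hnm
  have hΛ0 : 0 ≤ Λ := Finset.sum_nonneg fun p _ => len_nonneg p
  have hΛ1 : ∀ p ∈ P, len p ≤ Λ := fun p hp =>
    Finset.single_le_sum (f := fun p => len p) (fun p _ => len_nonneg p) hp
  have hnm1 : ∀ j, len (n j) ≤ nm := fun j =>
    Finset.single_le_sum (f := fun j => len (n j)) (fun j _ => len_nonneg _) (Finset.mem_univ j)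
  have hnm0 : 0 ≤ nm := Finset.sum_nonneg fun j _ => len_nonneg _
  -- the choice of the number of layers
  obtain ⟨N, hN, hN1, hN2, hN3, hN4⟩ : ∃ N : ℕ, 0 < N ∧
      (∑ j, ∑' k, ‖nl (s j) (s j) k‖ / len k) / N ≤ δ ∧
      96 * Real.sqrt ν * S / Real.sqrt N ≤ δ ∧ 96 * Real.pi * S / Real.sqrt N ≤ δ / 2 ∧
      192 * Real.pi * S / Real.sqrt ν / Real.sqrt N ≤ δ / 2 := by
    have a1 : ∀ᶠ N : ℕ in atTop, 0 < N := eventually_gt_atTop 0
    have a4 : ∀ x κ : ℝ, 0 < κ → ∀ᶠ N : ℕ in atTop, x / N ≤ κ := fun x κ hκ =>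
      (tendsto_const_div_atTop_nhds_zero_nat x).eventually_le_const hκ
    exact (a1.and ((a4 _ δ hδ).and ((ev_sqrt _ δ hδ).and ((ev_sqrt _ (δ / 2) (by positivity)).and
      (ev_sqrt _ (δ / 2) (by positivity)))))).exists
  have hNr : (0 : ℝ) < N := by exact_mod_cast hN
  have h2ν : 0 < 2 * Real.pi * Real.sqrt ν := by positivity
  have hM₀ : ∀ p ∈ E, ∀ᶠ K : ℕ in atTop, rp p (anti (∑ j : Fin J, ∑ l : Fin N,
      (((K ^ ((j : ℕ) + J * l + 1) : ℕ) * len (n j) / Real.sqrt N : ℝ) : ℂ) •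
        wv (K ^ ((j : ℕ) + J * l + 1)) (n j) (s j)))
      ≤ C p * (∑ j, fp p (s j)) + δ / (2 * Real.pi * Real.sqrt ν) ^ p := fun p hp =>
    alw J N n s P hN hJ9 hn0 hsP hsh hkd p (hE p hp) (δ / (2 * Real.pi * Real.sqrt ν) ^ p)
      (by positivity)
  have D : Dat (nn n N) (ss s N) P 0 Λ nm := dat_layers hn0 hsP hkd hΛ0 hΛ1 hnm1
  set y1 : Fin (N * J) → ℝ := fun i => 8 * N0 (ss s N i) with hy1
  set y2 : Fin (N * J) → ℝ := fun i => Real.sqrt (64 * ∑ p ∈ P, ‖ss s N i p‖ ^ 2) with hy2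
  have hy10 : ∀ i, 0 ≤ y1 i := fun i => by
    have := N0_nonneg (ss s N i)
    rw [hy1]
    positivity
  have hy20 : ∀ i, 0 ≤ y2 i := fun i => Real.sqrt_nonneg _
  -- the choice of the frequencies
  obtain ⟨K, hK, hKΛ, hKn, hKM, hKy, hKq, hKs, hK1, hK2, hK3, hK4, hK5, hK6, hK7, hK8, hKν,
      hKe⟩ :
      ∃ K : ℕ, 2 ≤ K ∧ 2 * Λ ≤ K ∧ nm ≤ K ∧
      (∀ p ∈ E, rp p (anti (∑ j : Fin J, ∑ l : Fin N,
        (((K ^ ((j : ℕ) + J * l + 1) : ℕ) * len (n j) / Real.sqrt N : ℝ) : ℂ) •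
          wv (K ^ ((j : ℕ) + J * l + 1)) (n j) (s j)))
        ≤ C p * (∑ j, fp p (s j)) + δ / (2 * Real.pi * Real.sqrt ν) ^ p) ∧
      (∀ q ∈ E, 2 * nm * (∑ i, yq s N (36 * Λ) q i) ^ 2 / K ≤ δ / 4) ∧
      2 * (3 * Q0 (ss s N) 0) ^ 2 / ν / K ≤ δ / 4 ∧
      2 * (36 * Λ) ^ 2 * S2 / K ≤ δ / 4 ∧
      KK ν (ss s N) 0 Λ nm / K ≤ δ ∧
      2 * Q0 (ss s N) 0 ^ 2 / ν / K ≤ 1 ∧ 2 * Q0 (ss s N) 0 ^ 2 / ν / K ≤ δ / 2 ∧
      2 * nm * (∑ i, y1 i) ^ 2 / K ≤ 1 ∧ 2 * nm * (∑ i, y2 i) ^ 2 / K ≤ δ / 2 ∧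
      nm * (16 * Real.sqrt ν * ∑ i, N0 (ss s N i)) ^ 2 / K ≤ 1 ∧
      Q0 (ss s N) 0 / Real.sqrt ν / Real.sqrt K ≤ δ / 2 ∧
      Q1 (ss s N) 0 / ν / K ≤ δ / 2 ∧ 2 / ν ≤ K ∧
      Real.exp (-(ν * δ / 2 * K)) * (Q1 (ss s N) 0 + 32 * Real.pi * Real.sqrt ν * nm ^ 2
        * (∑ i, N0 (ss s N i)) * (K : ℝ) ^ (2 * (N * J))) ≤ δ := by
    have a1 : ∀ m : ℕ, ∀ᶠ N : ℕ in atTop, m ≤ N := fun m => eventually_ge_atTop m
    have a2 : ∀ x : ℝ, ∀ᶠ N : ℕ in atTop, x ≤ N := fun x =>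
      tendsto_natCast_atTop_atTop.eventually_ge_atTop x
    have a4 : ∀ x κ : ℝ, 0 < κ → ∀ᶠ N : ℕ in atTop, x / N ≤ κ := fun x κ hκ =>
      (tendsto_const_div_atTop_nhds_zero_nat x).eventually_le_const hκ
    have hδ2 : 0 < δ / 2 := by positivity
    have hδ4 : 0 < δ / 4 := by positivity
    exact ((a1 2).and ((a2 _).and ((a2 _).and (((eventually_all_finset E).2 hM₀).and
      (((eventually_all_finset E).2 fun q _ => a4 _ _ hδ4).and ((a4 _ _ hδ4).and
      ((a4 _ _ hδ4).and ((a4 _ δ hδ).and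
      ((a4 _ 1 one_pos).and ((a4 _ _ hδ2).and ((a4 _ 1 one_pos).and ((a4 _ _ hδ2).and
      ((a4 _ 1 one_pos).and ((ev_sqrt _ _ hδ2).and ((a4 _ _ hδ2).and ((a2 _).and
      (ev_exp (Q1 (ss s N) 0) (32 * Real.pi * Real.sqrt ν * nm ^ 2 * ∑ i, N0 (ss s N i))
        (ν * δ / 2) δ (by positivity) hδ (2 * (N * J))))))))))))))))))).exists
  have hK0 : 0 < K := by omega
  have hKr : (0 : ℝ) < K := by exact_mod_cast hK0
  have hls0 : 0 < ls ν K := lt_of_lt_of_le (by positivity) (ls_ge hν hK0)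
  -- frequencies of the waves
  have hwf : ∀ j k, ww (nn n N) (ss s N) K j k ≠ 0 → (K : ℝ) / 2 ≤ len k := by
    intro j k hk
    have hM : 2 * Λ ≤ (Mj K j : ℝ) := hKΛ.trans (by exact_mod_cast Mj_ge hK0 j)
    have h1 := wv_ge (D.n0 j) (D.sP j) D.Λ1 hM hk
    have h2 := lm_ge' D hK0 j
    linarith
  choose Qw hQw using fun j => wv_supp (D.sP j) (Mj K j) (nn n N j)
  set Q : Finset K3 := (P ∪ Finset.image₂ (fun x y => x + y) P P) ∪ Finset.univ.biUnion Qw
    with hQ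
  have hbb : ∀ i, ∀ k ∉ Q, bb (nn n N) (ss s N) 0 K i k = 0 := by
    intro i k hk
    rw [hQ, Finset.mem_union, not_or, Finset.mem_union, not_or, Finset.mem_biUnion] at hk
    rcases i with j | j | _
    · exact supp_qq D j k hk.1.2
    · exact hQw j k fun h => hk.2 ⟨j, Finset.mem_univ j, h⟩
    · exact D.zP k hk.1.1
  have hb0 : ∀ i, bb (nn n N) (ss s N) 0 K i 0 = 0 := by
    intro i
    rcases i with j | j | _
    · exact nl_zero_mode _ _
    · by_contra h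
      have h1 := hwf j 0 h
      rw [len_zero] at h1
      linarith
    · rfl
  have hssh : ∀ i, Herm (ss s N i) := fun i => (hsh _).smul _
  have hbh : ∀ i, Herm (bb (nn n N) (ss s N) 0 K i) := by
    intro i
    rcases i with j | j | _
    · exact herm_nl (hssh j) (hssh j)
    · exact herm_wv (hssh j) _ _
    · exact Herm.zero
  have hbd : ∀ i, Dv (bb (nn n N) (ss s N) 0 K i) := by
    intro i
    rcases i with j | j | _
    · exact dv_nl _ _
    · exact dv_wv _ _ _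
    · exact Dv.zero
  have A := appr_ef ν hbh hbd hb0 hbb (cc ν (nn n N) K) (mu ν (nn n N) K)
  set B : Finset K3 := (Q ∪ Finset.image₂ (fun x y => x + y) Q Q).erase 0 with hB
  set v : ℝ → Cf := ef (cc ν (nn n N) K) (mu ν (nn n N) K) (bb (nn n N) (ss s N) 0 K) with hvdef
  have hv : ∀ t, v t = lo ν (nn n N) (ss s N) 0 K t + hi ν (nn n N) (ss s N) K t :=
    fun t => ef_eq t
  have hvc : ∀ k, Continuous fun t => v t k := fun k => ef_cont _ _ _ k
  have hl1 : ∀ t, L1 (lo ν (nn n N) (ss s N) 0 K t) := fun t =>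
    L1.lo' (ν := ν) (n := nn n N) (N := K) (lq D) (lz D) t
  have hh1 : ∀ t, L1 (hi ν (nn n N) (ss s N) K t) := fun t => L1.hi' (ν := ν) (N := K) (lw D) t
  have hsum : ∀ t, ∑ k ∈ B, ‖v t k‖
      ≤ N0 (lo ν (nn n N) (ss s N) 0 K t) + N0 (hi ν (nn n N) (ss s N) K t) := by
    intro t
    rw [hv]
    exact (sum_le_N0' ((hl1 t).add (hh1 t)) B).trans (N0_add_le (hl1 t) (hh1 t))
  have hlo0 : lo ν (nn n N) (ss s N) 0 K 0 = ∑ j, nl (s j) (s j) := by
    rw [lo]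
    simp only [mul_zero, neg_zero, Real.exp_zero, Complex.ofReal_one, one_smul, add_zero]
    exact sum_qq hN
  have hw0 : ∀ k, (∀ j, ww (nn n N) (ss s N) K j k = 0) → hi ν (nn n N) (ss s N) K 0 k = 0 := by
    intro k hk
    rw [hi, Finset.sum_apply]
    exact Finset.sum_eq_zero fun j _ => by rw [Pi.smul_apply, hk j, smul_zero]
  refine ⟨B, v, rs ν (cc ν (nn n N) K) (mu ν (nn n N) K) (bb (nn n N) (ss s N) 0 K),
    ge (ga ν (nn n N) (ss s N) 0 Λ 0 K) (gm ν (nn n N) K), hh ν (nn n N) (ss s N) K,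
    hi ν (nn n N) (ss s N) K 0, A, ge_cont _ _, ?_, ?_, ?_, ?_, ?_, ?_, ?_, ?_, hh_cont, ?_, ?_,
    ?_, ?_, ?_, ?_, ?_⟩
  · intro t ht
    exact rs_le D hν hK0 hKΛ B (Xb_zero B).le ht
  · intro T hT
    refine (ge_int (ga_nonneg D hν hK0 le_rfl) (gm_pos D hν hK0) hT).trans ?_
    refine (ga_sum D hν hK0 le_rfl).trans ?_
    linarith
  · intro T hT
    have hc : Continuous fun t => (∑ k ∈ B, ‖v t k‖) ^ 2 :=
      (continuous_finsetSum _ fun k _ => (hvc k).norm).pow 2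
    have h1 := int_sq D hν hK0 hy10 hc (q := Q0 (ss s N) 0) (fun t ht => ?_) hT hnm0
    · have h2 : ∑ i, y1 i ^ 2 = 64 * S2 := by
        have e : ∀ i, y1 i ^ 2 = 64 * N0 (ss s N i) ^ 2 := fun i => by
          simp only [hy1]
          ring
        simp_rw [e]
        rw [← Finset.mul_sum, sum_N0_sq hN]
      have h3 : 2 * (nm / K) * (∑ i, y1 i) ^ 2 = 2 * nm * (∑ i, y1 i) ^ 2 / K := by ring
      rw [h2, h3] at h1
      have h4 : 0 ≤ 128 * ν * S2 := by positivity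
      linarith
    · have h2 := hsum t
      have h3 : 0 ≤ ∑ k ∈ B, ‖v t k‖ := Finset.sum_nonneg fun k _ => norm_nonneg _
      have h4 : N0 (lo ν (nn n N) (ss s N) 0 K t) ≤ Q0 (ss s N) 0 * Real.exp (-(ls ν K * t)) :=
        N0_lo D hν hK0 ht
      have h5 : N0 (hi ν (nn n N) (ss s N) K t) ≤ ∑ j, y1 j
          * (rj ν (nn n N) K j * Real.exp (-(rj ν (nn n N) K j ^ 2 * t))) := by
        refine (N0_hi D hν hK0 t).trans (le_of_eq ?_)
        refine Finset.sum_congr rfl fun j _ => ?_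
        rw [am, hy1]
        ring
      have h6 := pow_le_pow_left₀ h3 (h2.trans (add_le_add h4 h5)) 2
      refine h6.trans ?_
      nlinarith [sq_nonneg (Q0 (ss s N) 0 * Real.exp (-(ls ν K * t)) - ∑ j, y1 j
          * (rj ν (nn n N) K j * Real.exp (-(rj ν (nn n N) K j ^ 2 * t))))]
  · intro T hT
    have hc : Continuous fun t => ∑ k ∈ B, ‖v t k‖ ^ 2 :=
      continuous_finsetSum _ fun k _ => (hvc k).norm.pow 2
    have h1 := int_sq D hν hK0 hy20 hc (q := Q0 (ss s N) 0) (fun t ht => ?_) hT hnm0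
    · have h2 : ∑ i, y2 i ^ 2 = 64 * ∑ j, ∑ p ∈ P, ‖s j p‖ ^ 2 := by
        have e : ∀ i, y2 i ^ 2 = 64 * ∑ p ∈ P, ‖ss s N i p‖ ^ 2 := fun i =>
          Real.sq_sqrt (mul_nonneg (by norm_num) (Finset.sum_nonneg fun p _ => sq_nonneg _))
        simp_rw [e]
        exact sum_l2 hN
      have h3 : 2 * (nm / K) * (∑ i, y2 i) ^ 2 = 2 * nm * (∑ i, y2 i) ^ 2 / K := by ring
      rw [h2, h3] at h1
      have h4 : 0 ≤ (8 + (2 * Real.pi) ^ (2 : ℝ) * C 2) * ∑ j, ∑ p ∈ P, ‖s j p‖ ^ 2 := by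
        have := hC 2
        exact mul_nonneg (by positivity) (Finset.sum_nonneg fun j _ =>
          Finset.sum_nonneg fun p _ => sq_nonneg _)
      linarith
    · have h2 : ∑ k ∈ B, ‖v t k‖ ^ 2
          ≤ 2 * ∑ k ∈ B, ‖lo ν (nn n N) (ss s N) 0 K t k‖ ^ 2
            + 2 * ∑ k ∈ B, ‖hi ν (nn n N) (ss s N) K t k‖ ^ 2 := by
        rw [Finset.mul_sum, Finset.mul_sum, ← Finset.sum_add_distrib]
        refine Finset.sum_le_sum fun k _ => ?_
        rw [hv, Pi.add_apply]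
        have h3 := norm_add_le (lo ν (nn n N) (ss s N) 0 K t k) (hi ν (nn n N) (ss s N) K t k)
        have h4 := pow_le_pow_left₀ (norm_nonneg _) h3 2
        nlinarith [sq_nonneg (‖lo ν (nn n N) (ss s N) 0 K t k‖
          - ‖hi ν (nn n N) (ss s N) K t k‖)]
      have h3 : ∑ k ∈ B, ‖lo ν (nn n N) (ss s N) 0 K t k‖ ^ 2
          ≤ (Q0 (ss s N) 0 * Real.exp (-(ls ν K * t))) ^ 2 := by
        refine (sq_sum_ge B fun k => norm_nonneg _).trans ?_
        exact pow_le_pow_left₀ (Finset.sum_nonneg fun k _ => norm_nonneg _)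
          ((sum_le_N0' (hl1 t) B).trans (N0_lo D hν hK0 ht)) 2
      have h4 : ∑ k ∈ B, ‖hi ν (nn n N) (ss s N) K t k‖ ^ 2
          ≤ (∑ j, y2 j * (rj ν (nn n N) K j * Real.exp (-(rj ν (nn n N) K j ^ 2 * t)))) ^ 2 := by
        refine (sq_sum_le B (c := am ν (nn n N) K t) (w := ww (nn n N) (ss s N) K)
          (fun i => am_nonneg D hν hK0 t i) hy20 (fun i => ?_)).trans (le_of_eq ?_)
        · rw [hy2, Real.sq_sqrt (mul_nonneg (by norm_num)
            (Finset.sum_nonneg fun p _ => sq_nonneg _))]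
          exact wv_l2 (D.sP i) _ _ B
        · congr 1
          refine Finset.sum_congr rfl fun j _ => ?_
          rw [am, mul_comm]
      linarith
  · intro q hqE hq2 T hT
    have hq0 : 0 < q := by linarith
    have hKr : (1 : ℝ) ≤ K := by exact_mod_cast hK0
    have hKr0 : (0 : ℝ) < K := by linarith
    have hc : Continuous fun t => fp q (v t) ^ (2 / q) :=
      (fp_cont hQ0 hq0 (fun t => ef_supp hbb _ _ t) hvc).rpow_const fun t => Or.inr (by positivity)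
    have hy0 : ∀ i, 0 ≤ yq s N (36 * Λ / K) q i := fun i => yq_nonneg (by positivity) q i
    have h1 := int_sq D hν hK0 hy0 hc (q := 3 * Q0 (ss s N) 0) (fun t ht => ?_) hT hnm0
    · have h2 := sum_yq_sq (s := s) hN (e := 36 * Λ / K) hq0
      have h3 : 2 * (nm / K) * (∑ i, yq s N (36 * Λ / K) q i) ^ 2
          ≤ 2 * nm * (∑ i, yq s N (36 * Λ) q i) ^ 2 / K := by
        have h4 : ∑ i, yq s N (36 * Λ / K) q i ≤ ∑ i, yq s N (36 * Λ) q i := by
          refine Finset.sum_le_sum fun i _ => ?_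
          unfold yq
          have h5 : 36 * Λ / K ≤ 36 * Λ := div_le_self (by positivity) hKr
          have h6 := mul_le_mul_of_nonneg_right h5 (N0_nonneg (ss s N i))
          linarith
        have h5 : 0 ≤ ∑ i, yq s N (36 * Λ / K) q i := Finset.sum_nonneg fun i _ => hy0 i
        have h6 := pow_le_pow_left₀ h5 h4 2
        calc 2 * (nm / K) * (∑ i, yq s N (36 * Λ / K) q i) ^ 2
            ≤ 2 * (nm / K) * (∑ i, yq s N (36 * Λ) q i) ^ 2 :=
              mul_le_mul_of_nonneg_left h6 (by positivity)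
          _ = _ := by ring
      have h4 : 2 * (36 * Λ / K) ^ 2 * S2 ≤ 2 * (36 * Λ) ^ 2 * S2 / K := by
        have h5 : (36 * Λ / K) ^ 2 ≤ (36 * Λ) ^ 2 / K := by
          rw [div_pow]
          refine div_le_div_of_nonneg_left (sq_nonneg _) hKr0 ?_
          nlinarith
        have h6 := mul_le_mul_of_nonneg_right h5 hS20
        calc 2 * (36 * Λ / K) ^ 2 * S2 = 2 * ((36 * Λ / K) ^ 2 * S2) := by ring
          _ ≤ 2 * ((36 * Λ) ^ 2 / K * S2) := mul_le_mul_of_nonneg_left h6 (by norm_num)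
          _ = _ := by ring
      have h5 := hKy q hqE
      have hF : 0 ≤ ∑ j, fp q (s j) ^ (2 / q) :=
        Finset.sum_nonneg fun j _ => Real.rpow_nonneg (fp_nonneg _ _) _
      have h6 : 0 ≤ (64 + (2 * Real.pi) ^ q * C q) * ∑ j, fp q (s j) ^ (2 / q) := by
        have := hC q
        exact mul_nonneg (by positivity) hF
      linarith
    · have h2 := fp_v hQ0 D hν hK0 hKΛ (by linarith : 1 ≤ q) ht
      rw [← hv] at h2
      have h3 : 0 ≤ fp q (v t) ^ (1 / q) := Real.rpow_nonneg (fp_nonneg _ _) _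
      rw [← sq_root (fp_nonneg _ _)]
      refine (pow_le_pow_left₀ h3 h2 2).trans ?_
      nlinarith [sq_nonneg (3 * Q0 (ss s N) 0 * Real.exp (-(ls ν K * t))
        - ∑ i, yq s N (36 * Λ / K) q i
          * (rj ν (nn n N) K i * Real.exp (-(rj ν (nn n N) K i ^ 2 * t))))]
  · intro k
    rw [hv, hlo0, Pi.add_apply, Finset.sum_apply]
  · intro k hk
    refine hw0 k fun j => ?_
    by_contra h
    have h1 := hwf j k h
    have hk0 : k ≠ 0 := fun e => by
      rw [e, len_zero] at h1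
      linarith
    have hkQ : k ∉ Q := fun h' => hk (by
      rw [hB, Finset.mem_erase]
      exact ⟨hk0, Finset.mem_union_left _ h'⟩)
    exact h (hbb (Sum.inr (Sum.inl j)) k hkQ)
  · intro p hp
    have hp0 := hE p hp
    have h1 := hKM p hp
    rw [hi_zero, rp_smul h2ν.le]
    have h2 := mul_le_mul_of_nonneg_left h1 (Real.rpow_nonneg h2ν.le p)
    refine h2.trans ?_
    have h3 : (2 * Real.pi * Real.sqrt ν) ^ p = (2 * Real.pi) ^ p * ν ^ (p / 2) := by
      rw [Real.mul_rpow (by positivity) (Real.sqrt_nonneg ν), Real.sqrt_eq_rpow,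
        ← Real.rpow_mul hν.le]
      congr 2
      ring
    have h4 : 0 < (2 * Real.pi * Real.sqrt ν) ^ p := by positivity
    have h5 : (2 * Real.pi * Real.sqrt ν) ^ p * (C p * ∑ j, fp p (s j)
        + δ / (2 * Real.pi * Real.sqrt ν) ^ p)
        = (2 * Real.pi * Real.sqrt ν) ^ p * C p * (∑ j, fp p (s j)) + δ := by
      field_simp
    rw [h5, h3]
    have h6 : 0 ≤ ∑ j, fp p (s j) := Finset.sum_nonneg fun j _ => fp_nonneg _ _
    have h7 : 0 ≤ 72 * ν ^ (p / 2) * ∑ j, fp p (s j) := by positivity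
    have h8 : (72 + (2 * Real.pi) ^ p * C p) * ν ^ (p / 2) * (∑ j, fp p (s j))
        = 72 * ν ^ (p / 2) * (∑ j, fp p (s j))
          + (2 * Real.pi) ^ p * ν ^ (p / 2) * C p * (∑ j, fp p (s j)) := by ring
    rw [h8]
    linarith
  · intro r hr
    refine (hh_le hν hK hJ hr).trans ?_
    exact div_le_div_of_nonneg_right hN2 (Real.sqrt_nonneg _)
  · intro T hT
    refine (hh_int D hν hK0 hT hnm0).trans ?_
    rw [sum_N0_sq hN]
    have h3 : nm / K * (16 * Real.sqrt ν * ∑ i, N0 (ss s N i)) ^ 2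
        = nm * (16 * Real.sqrt ν * ∑ i, N0 (ss s N i)) ^ 2 / K := by ring
    rw [h3]
    linarith
  · intro r hr
    exact ht_hi D hν hK0 hKΛ B le_rfl hr
  · intro t h0t
    have hnls : ∀ j, ∀ k ∉ Finset.image₂ (fun x y => x + y) P P, nl (s j) (s j) k = 0 :=
      fun j k hk => nl_supp (hsP j) hk
    have hes : ∀ k ∉ Finset.image₂ (fun x y => x + y) P P,
        1 / (N : ℝ) * ∑ j, ‖nl (s j) (s j) k‖ = 0 := fun k hk => by
      rw [Finset.sum_eq_zero fun j _ => by rw [hnls j k hk, norm_zero], mul_zero]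
    have hes1 : Summable fun k => 1 / (N : ℝ) * ∑ j, ‖nl (s j) (s j) k‖ :=
      summable_of_ne_finset_zero (s := Finset.image₂ (fun x y => x + y) P P) hes
    have he0 : ∀ k, 0 ≤ 1 / (N : ℝ) * ∑ j, ‖nl (s j) (s j) k‖ := fun k =>
      mul_nonneg (by positivity) (Finset.sum_nonneg fun j _ => norm_nonneg _)
    refine ⟨fun k => 1 / (N : ℝ) * ∑ j, ‖nl (s j) (s j) k‖, he0, ?_, hes1, ?_, ?_⟩
    · simp only [nl_zero_mode, norm_zero, Finset.sum_const_zero, mul_zero]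
    · have h1 : ∀ k, 1 / (N : ℝ) * (∑ j, ‖nl (s j) (s j) k‖) / len k
          = 1 / (N : ℝ) * ∑ j, ‖nl (s j) (s j) k‖ / len k := by
        intro k
        rw [← Finset.sum_div]
        ring
      simp_rw [h1]
      rw [tsum_mul_left, Summable.tsum_finsetSum fun j _ => ?_]
      · refine le_trans (le_of_eq ?_) hN1
        ring
      · exact summable_of_ne_finset_zero (s := Finset.image₂ (fun x y => x + y) P P)
          fun k hk => by rw [hnls j k hk, norm_zero, zero_div]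
    · intro r hr
      have h1 : ∀ k, ht r k * ‖v t k‖ ≤ ht r k * ‖∑ j, nl (s j) (s j) k‖
          + ht r k * (1 / (N : ℝ) * ∑ j, ‖nl (s j) (s j) k‖)
          + ht r k * ‖hi ν (nn n N) (ss s N) K t k‖ := by
        intro k
        rw [hv, Pi.add_apply, ← mul_add, ← mul_add]
        refine mul_le_mul_of_nonneg_left ?_ (ht_pos' r k).le
        refine (norm_add_le _ _).trans (add_le_add ?_ le_rfl)
        exact lo_near hJ hn0 hnm1 hK0 hKn hN s h0t k
      refine (Finset.sum_le_sum fun k _ => h1 k).trans ?_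
      rw [Finset.sum_add_distrib, Finset.sum_add_distrib]
      have h2 := ht_hi D hν hK0 hKΛ B h0t hr
      have h3 : ∑ k ∈ B, ht r k * (1 / (N : ℝ) * ∑ j, ‖nl (s j) (s j) k‖)
          ≤ ∑' k, ht r k * (1 / (N : ℝ) * ∑ j, ‖nl (s j) (s j) k‖) := by
        refine Summable.sum_le_tsum B (fun k _ => mul_nonneg (ht_pos' r k).le (he0 k)) ?_
        exact summable_of_ne_finset_zero (s := Finset.image₂ (fun x y => x + y) P P)
          fun k hk => by rw [hes k hk, mul_zero]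
      have h4 : ∑ k ∈ B, ht r k * ‖hi ν (nn n N) (ss s N) K t k‖
          ≤ hh ν (nn n N) (ss s N) K r := h2
      linarith
  · intro t ht
    refine (hsum t).trans ((N0_bd D hν hK hJ ht).trans ?_)
    refine div_le_div_of_nonneg_right ?_ (Real.sqrt_nonneg _)
    linarith
  · intro t ht
    have h1 := Yb_bd D hν hK hKΛ hJ B ht
    rw [← hv] at h1
    refine h1.trans ?_
    refine div_le_div_of_nonneg_right ?_ ht.le
    linarith
  · intro t ht
    have ht0 : 0 ≤ t := hδ.le.trans ht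
    have h1 := Yb_v D hν hK0 hKΛ B ht0
    rw [← hv] at h1
    refine h1.trans ?_
    have hQ1 : 0 ≤ Q1 (ss s N) 0 := Q1_nonneg
    have hSS : 0 ≤ ∑ i, N0 (ss s N i) := Finset.sum_nonneg fun i _ => N0_nonneg _
    have hνN : 2 ≤ ν * K := by
      rw [div_le_iff₀ hν] at hKν
      linarith
    have h2 : Real.exp (-(ls ν K * t)) ≤ Real.exp (-t) * Real.exp (-(ν * δ / 2 * K)) := by
      rw [← Real.exp_add]
      refine Real.exp_le_exp.2 ?_
      have h3 := ls_ge hν hK0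
      have h4 : ν * K * t ≤ ls ν K * t := mul_le_mul_of_nonneg_right h3 ht0
      have h5 : t ≤ ν * K * t / 2 := by nlinarith
      have h6 : ν * δ / 2 * K ≤ ν * K * t / 2 := by
        have : ν * K * δ ≤ ν * K * t := mul_le_mul_of_nonneg_left ht (by positivity)
        linarith
      linarith
    calc _ ≤ (Real.exp (-t) * Real.exp (-(ν * δ / 2 * K)))
          * (Q1 (ss s N) 0 + 32 * Real.pi * Real.sqrt ν * nm ^ 2 * (∑ i, N0 (ss s N i))
            * (K : ℝ) ^ (2 * (N * J))) := by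
          refine mul_le_mul_of_nonneg_right h2 ?_
          positivity
      _ = (Real.exp (-(ν * δ / 2 * K)) * (Q1 (ss s N) 0 + 32 * Real.pi * Real.sqrt ν
          * nm ^ 2 * (∑ i, N0 (ss s N i)) * (K : ℝ) ^ (2 * (N * J)))) * Real.exp (-t) := by ring
      _ ≤ δ * Real.exp (-t) := mul_le_mul_of_nonneg_right hKe (Real.exp_pos _).le

end Pool.Agent.Run7.h969.WQ
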