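import Pool.Agent.Run7.h219.WQ.NecA
import Pool.Agent.Run7.h779.WQ.D1A
import Pool.Agent.Run7.h782.WQ.Defs4
import Pool.Agent.Run7.h969.GD.Tgt2
import Pool.Agent.Run7.h308.GS.P10

/-!
Strong continuity of the heat semigroup in `L^p`.
-/

set_option autoImplicit false

open MeasureTheory Set Filter Topology
open scoped ContDiff ENNReal ComplexConjugate

namespace Pool.Agent.Run7.h969.WQ

open H459R3.NS Pool.Agent.Run7.h782 Pool.Agent.Run7.h782.GD Pool.Agent.Run7.h782.GS
open Pool.Agent.Run7.h782.WQ Pool.Agent.Run7.h779.WQ Pool.Agent.Run7.h219.WQ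

section
variable {f : V → ℝ} {t : ℝ}

/-- The coefficients of `e^(tΔ) f`. -/
noncomputable def hc (t : ℝ) (f : V → ℝ) (k : K3) : ℂ :=
  (Real.exp (-(4 * Real.pi ^ 2 * GD.sq k * t)) : ℂ) * fr f k

theorem gc_one (t : ℝ) (k : K3) : gc 1 t k = (Real.exp (-(4 * Real.pi ^ 2 * GD.sq k * t)) : ℂ) := by
  rw [gc, lam]
  congr 3
  ring

theorem heat_eq (t : ℝ) (f : V → ℝ) (x : V) : heat t f x = (S (hc t f) x).re := rfl

theorem norm_fr_le' (hf : Integrable f mc) (k : K3) : ‖fr f k‖ ≤ ∫ x in cube, |f x| := by
  rw [fr, fc]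
  refine (norm_integral_le_integral_norm _).trans (le_of_eq ?_)
  refine integral_congr_ae (Eventually.of_forall fun x => ?_)
  simp only [norm_mul, norm_ee, one_mul, mul_one, Complex.norm_real, Real.norm_eq_abs]

theorem hc_summable (hf : Integrable f mc) (ht : 0 < t) : Summable (hc t f) := by
  have h1 := (summable_gc one_pos ht).norm.mul_right (∫ x in cube, |f x|)
  refine Summable.of_norm (Summable.of_nonneg_of_le (fun _ => norm_nonneg _) (fun k => ?_) h1)
  rw [hc, norm_mul, ← gc_one]
  exact mul_le_mul_of_nonneg_left (norm_fr_le' hf k) (norm_nonneg _)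

theorem hc_herm (t : ℝ) (f : V → ℝ) (k : K3) : hc t f (-k) = conj (hc t f k) := by
  rw [hc, hc, map_mul, Complex.conj_ofReal, Pool.Agent.Run7.h32.GD.fr_neg, GD.sq, GD.sq]
  simp

theorem S_real (hf : Integrable f mc) (ht : 0 < t) (x : V) :
    S (hc t f) x = ((S (hc t f) x).re : ℂ) := by
  have h1 := S_conj (a := hc t f) x
  have h2 : (fun k => conj (hc t f (-k))) = hc t f := by
    funext k
    rw [hc_herm, Complex.conj_conj]
  rw [h2] at h1
  exact (Complex.conj_eq_iff_re.1 h1.symm).symm

theorem heat_cont (hf : Integrable f mc) (ht : 0 < t) : Continuous (heat t f) :=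
  Complex.continuous_re.comp (S_continuous (hc_summable hf ht))

theorem heat_per (t : ℝ) (f : V → ℝ) : Per (heat t f) := by
  intro i x
  rw [heat_eq, heat_eq]
  congr 1
  unfold S
  exact tsum_congr fun k => by rw [ee_per]

theorem fr_heat (hf : Integrable f mc) (ht : 0 < t) (k : K3) : fr (heat t f) k = hc t f k := by
  have h := integral_ee_S (-k) (hc_summable hf ht)
  rw [neg_neg] at h
  rw [← h, fr, fc]
  refine integral_congr_ae (Eventually.of_forall fun x => ?_)
  simp only
  rw [heat_eq, ← S_real hf ht]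

/-- The representation by the heat kernel. -/
theorem heat_rep (hf : Integrable f mc) (ht : 0 < t) (x : V) :
    heat t f x = ∫ y in cube, G 1 t (x - y) * f y := by
  have hg := summable_gc one_pos ht
  set F : K3 → V → ℂ := fun k y => gc 1 t k * ee k x * (ee (-k) y * (f y : ℂ)) with hF
  have h0 : ∀ k, Integrable (fun y => ee (-k) y * (f y : ℂ)) mc := by
    intro k
    refine Integrable.bdd_mul (c := 1) hf.ofReal ?_ (Eventually.of_forall fun y => ?_)
    · exact (ee_continuous (-k)).aestronglyMeasurable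
    · rw [norm_ee]
  have h1 : ∀ k, Integrable (F k) mc := fun k => (h0 k).const_mul _
  have h2 : Summable fun k => ∫ y, ‖F k y‖ ∂mc := by
    refine (hg.norm.mul_right (∫ x in cube, |f x|)).congr fun k => ?_
    rw [← integral_const_mul]
    refine integral_congr_ae (Eventually.of_forall fun y => ?_)
    simp only [hF, norm_mul, norm_ee, mul_one, one_mul, Complex.norm_real, Real.norm_eq_abs]
  have h3 := hasSum_integral_of_summable_integral_norm h1 h2
  have e1 : ∀ k, ∫ y, F k y ∂mc = hc t f k * ee k x := by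
    intro k
    simp only [hF]
    rw [integral_const_mul, hc, ← gc_one, fr, fc]
    ring
  have e2 : ∀ y, ∑' k, F k y = ((G 1 t (x - y) * f y : ℝ) : ℂ) := by
    intro y
    push_cast
    rw [← S_gc' one_pos ht, S_shift, S, ← tsum_mul_right]
    refine tsum_congr fun k => ?_
    simp only [hF]
    ring
  simp_rw [e1, e2] at h3
  rw [integral_complex_ofReal] at h3
  have h4 : S (hc t f) x = ((∫ y in cube, G 1 t (x - y) * f y : ℝ) : ℂ) := h3.tsum_eq
  rw [heat_eq, h4, Complex.ofReal_re]

theorem int_G' (ht : 0 < t) (x : V) : ∫ y in cube, G 1 t (x - y) = 1 := by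
  have h := heat_rep (f := fun _ => 1) (integrable_const 1) ht x
  simp only [mul_one] at h
  rw [← h, heat]
  have e : ∀ k, (Real.exp (-(4 * Real.pi ^ 2 * GD.sq k * t)) : ℂ) * fr (fun _ => (1 : ℝ)) k
      * ee k x = if k = 0 then 1 else 0 := by
    intro k
    rw [Pool.Agent.Run7.h308.GS.fr_const]
    by_cases hk : k = 0
    · subst hk
      simp [GD.sq, ee_zero]
    · simp [hk]
  simp_rw [e]
  rw [tsum_ite_eq]
  simp

theorem G_meas2 (ht : 0 < t) : Measurable fun z : V × V => ENNReal.ofReal (G 1 t (z.1 - z.2)) :=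
  ENNReal.measurable_ofReal.comp
    ((G_cont one_pos ht).comp (continuous_fst.sub continuous_snd)).measurable

/-- Contraction in `L^p`. -/
theorem heat_contr {p : ℝ} (hp : 1 ≤ p) (hf : Integrable f mc) (ht : 0 < t) :
    ∫⁻ x, ‖heat t f x‖ₑ ^ p ∂mc ≤ ∫⁻ y, ‖f y‖ₑ ^ p ∂mc := by
  have hp0 : 0 < p := by linarith
  have hm : AEMeasurable (fun y => ‖f y‖ₑ ^ p) mc := hf.aestronglyMeasurable.enorm.pow_const p
  have key : ∀ x, ‖heat t f x‖ₑ ^ p
      ≤ ∫⁻ y, ENNReal.ofReal (G 1 t (x - y)) * ‖f y‖ₑ ^ p ∂mc := by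
    intro x
    have hgm : Measurable fun y : V => ENNReal.ofReal (G 1 t (x - y)) :=
      ENNReal.measurable_ofReal.comp
        ((G_cont one_pos ht).comp (continuous_const.sub continuous_id)).measurable
    obtain ⟨μ, hμ⟩ : ∃ μ : Measure V, μ = mc.withDensity fun y => ENNReal.ofReal (G 1 t (x - y)) :=
      ⟨_, rfl⟩
    have hGi : Integrable (fun y => G 1 t (x - y)) mc :=
      integrableOn_cube ((G_cont one_pos ht).comp (continuous_const.sub continuous_id))
    have hprob : IsProbabilityMeasure μ := ⟨by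
      rw [hμ, withDensity_apply _ MeasurableSet.univ, Measure.restrict_univ,
        ← ofReal_integral_eq_lintegral_ofReal hGi
          (Eventually.of_forall fun y => G_nonneg one_pos ht _), int_G' ht, ENNReal.ofReal_one]⟩
    have hfm : AEStronglyMeasurable f μ :=
      hf.aestronglyMeasurable.mono_ac (hμ ▸ withDensity_absolutelyContinuous _ _)
    have h1 : ‖heat t f x‖ₑ ≤ ∫⁻ y, ‖f y‖ₑ ∂μ := by
      rw [heat_rep hf ht, hμ, lintegral_withDensity_eq_lintegral_mul₀ hgm.aemeasurable
        hf.aestronglyMeasurable.enorm]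
      refine (enorm_integral_le_lintegral_enorm _).trans (le_of_eq ?_)
      refine lintegral_congr fun y => ?_
      rw [enorm_mul, Pi.mul_apply, Real.enorm_eq_ofReal (G_nonneg one_pos ht _)]
    have h2 := eLpNorm_le_eLpNorm_of_exponent_le (p := 1) (q := ENNReal.ofReal p) (μ := μ)
      (by rw [← ENNReal.ofReal_one]; exact ENNReal.ofReal_le_ofReal hp) hfm
    rw [eLpNorm_one_eq_lintegral_enorm, eLpNorm_eq_lintegral_rpow_enorm_toReal
      (by simpa using hp0) ENNReal.ofReal_ne_top, ENNReal.toReal_ofReal hp0.le] at h2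
    have h3 := ENNReal.rpow_le_rpow (h1.trans h2) hp0.le
    rw [← ENNReal.rpow_mul, one_div, inv_mul_cancel₀ hp0.ne', ENNReal.rpow_one] at h3
    refine h3.trans (le_of_eq ?_)
    rw [hμ, lintegral_withDensity_eq_lintegral_mul₀ hgm.aemeasurable hm]
    rfl
  refine (lintegral_mono key).trans ?_
  rw [lintegral_lintegral_swap]
  · refine (lintegral_congr fun y => ?_).le
    have hgm : Measurable fun x : V => ENNReal.ofReal (G 1 t (x - y)) :=
      ENNReal.measurable_ofReal.comp
        ((G_cont one_pos ht).comp (continuous_id.sub continuous_const)).measurable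
    have hGi : Integrable (fun x => G 1 t (x - y)) mc :=
      integrableOn_cube ((G_cont one_pos ht).comp (continuous_id.sub continuous_const))
    rw [lintegral_mul_const _ hgm,
      ← ofReal_integral_eq_lintegral_ofReal hGi (Eventually.of_forall fun x =>
          G_nonneg one_pos ht _), int_G one_pos ht, ENNReal.ofReal_one, one_mul]
  · exact (G_meas2 ht).aemeasurable.mul hm.comp_snd

theorem heat_sub {g : V → ℝ} (hf : Integrable f mc) (hg : Integrable g mc) (ht : 0 < t) (x : V) :
    heat t (fun y => f y - g y) x = heat t f x - heat t g x := by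
  have hb : ∀ h : V → ℝ, Integrable h mc → Integrable (fun y => G 1 t (x - y) * h y) mc := by
    intro h hh
    have hc : Continuous fun y => G 1 t (x - y) :=
      (G_cont one_pos ht).comp (continuous_const.sub continuous_id)
    obtain ⟨C, hC⟩ := isCompact_Icc.exists_bound_of_continuousOn (s := cube) hc.continuousOn
    refine Integrable.bdd_mul (c := C) hh hc.aestronglyMeasurable ?_
    filter_upwards [ae_restrict_mem (measurableSet_Icc : MeasurableSet cube)] with y hy
    exact hC y hy
  have h1 : heat t (fun y => f y - g y) x = ∫ y in cube, G 1 t (x - y) * (f y - g y) :=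
    heat_rep (hf.sub hg) ht x
  rw [h1, heat_rep hf ht, heat_rep hg ht, ← integral_sub (hb f hf) (hb g hg)]
  refine integral_congr_ae (Eventually.of_forall fun y => ?_)
  simp only
  ring

end

/-- Trigonometric polynomials. -/
theorem heat_trig {a : K3 → ℂ} {Z : Finset K3} (hZ : ∀ k ∉ Z, a k = 0)
    (hh : ∀ k, a (-k) = conj (a k)) {t : ℝ} (ht : 0 < t) (x : V) :
    |heat t (fun y => (S a y).re) x - (S a x).re|
      ≤ ∑ k ∈ Z, |Real.exp (-(4 * Real.pi ^ 2 * GD.sq k * t)) - 1| * ‖a k‖ := by
  have hs : Summable a := summable_of_ne_finset_zero (s := Z) hZ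
  have hre : ∀ y, S a y = ((S a y).re : ℂ) := by
    intro y
    have h1 := S_conj (a := a) y
    have h2 : (fun k => conj (a (-k))) = a := by
      funext k
      rw [hh, Complex.conj_conj]
    rw [h2] at h1
    exact (Complex.conj_eq_iff_re.1 h1.symm).symm
  have hfr : ∀ k, fr (fun y => (S a y).re) k = a k := by
    intro k
    have h := integral_ee_S (-k) hs
    rw [neg_neg] at h
    rw [← h, fr, fc]
    refine integral_congr_ae (Eventually.of_forall fun y => ?_)
    simp only
    rw [← hre]
  have hg : Integrable (fun y => (S a y).re) mc :=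
    integrableOn_cube (Complex.continuous_re.comp (S_continuous hs))
  have e1 : heat t (fun y => (S a y).re) x - (S a x).re
      = (∑ k ∈ Z, (((Real.exp (-(4 * Real.pi ^ 2 * GD.sq k * t)) - 1 : ℝ) : ℂ) * a k
        * ee k x)).re := by
    have h1 : S (hc t fun y => (S a y).re) x
        = ∑ k ∈ Z, (Real.exp (-(4 * Real.pi ^ 2 * GD.sq k * t)) : ℂ) * a k * ee k x := by
      rw [S, tsum_eq_sum (s := Z) fun k hk => by rw [hc, hfr, hZ k hk, mul_zero, zero_mul]]
      exact Finset.sum_congr rfl fun k _ => by rw [hc, hfr]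
    have h2 : S a x = ∑ k ∈ Z, a k * ee k x := by
      rw [S, tsum_eq_sum (s := Z) fun k hk => by rw [hZ k hk, zero_mul]]
    rw [heat_eq, h1, h2, ← Complex.sub_re, ← Finset.sum_sub_distrib]
    congr 1
    refine Finset.sum_congr rfl fun k _ => ?_
    push_cast
    ring
  rw [e1]
  refine (Complex.abs_re_le_norm _).trans ((norm_sum_le _ _).trans (le_of_eq ?_))
  refine Finset.sum_congr rfl fun k _ => ?_
  rw [norm_mul, norm_mul, norm_ee, mul_one, Complex.norm_real, Real.norm_eq_abs]

/-- **Piece HeatC.** -/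
theorem heatC : StmHeatC := by
  intro p hp f _ hf hfp
  have hp0 : 0 < p := by linarith
  have hfi : Integrable f mc := hf
  refine ⟨fun t ht => ⟨heat_cont hfi ht, heat_per t f⟩, fun t ht k => fr_heat hfi ht k, ?_⟩
  set q : ℝ≥0∞ := ENNReal.ofReal p with hq
  have hq0 : q ≠ 0 := by simpa [hq] using hp0
  have hqt : q ≠ ⊤ := ENNReal.ofReal_ne_top
  have hqr : q.toReal = p := ENNReal.toReal_ofReal hp0.le
  have hq1 : 1 ≤ q := by
    rw [← ENNReal.ofReal_one]
    exact ENNReal.ofReal_le_ofReal hp
  have hmem : MemLp f q mc := by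
    rw [← integrable_norm_rpow_iff hfi.aestronglyMeasurable hq0 hqt, hqr]
    exact hfp
  -- contraction
  have hcon : ∀ g : V → ℝ, Integrable g mc → ∀ t, 0 < t →
      eLpNorm (heat t g) q mc ≤ eLpNorm g q mc := by
    intro g hg t ht
    rw [eLpNorm_eq_lintegral_rpow_enorm_toReal hq0 hqt, eLpNorm_eq_lintegral_rpow_enorm_toReal hq0 hqt,
      hqr]
    exact ENNReal.rpow_le_rpow (heat_contr hp hg ht) (by positivity)
  -- convergence
  have hlim : Tendsto (fun t => eLpNorm (fun x => heat t f x - f x) q mc) (𝓝[>] 0) (𝓝 0) := by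
    rw [ENNReal.tendsto_nhds_zero]
    intro ε hε
    have hε3 : ε / 3 ≠ 0 := (ENNReal.div_pos hε.ne' (by simp)).ne'
    obtain ⟨a, ⟨Z, hZ⟩, hh, ha⟩ := dens_real hq1 hqt hmem hε3
    have hs : Summable a := summable_of_ne_finset_zero (s := Z) hZ
    set g : V → ℝ := fun y => (S a y).re with hg
    have hgc : Continuous g := Complex.continuous_re.comp (S_continuous hs)
    have hgi : Integrable g mc := integrableOn_cube hgc
    have hfg : eLpNorm (fun x => f x - g x) q mc ≤ ε / 3 := by
      refine le_trans (eLpNorm_mono fun x => ?_) ha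
      have : f x - g x = ((f x : ℂ) - S a x).re := by
        rw [Complex.sub_re, Complex.ofReal_re]
      rw [this, Real.norm_eq_abs]
      exact Complex.abs_re_le_norm _
    have hη : Tendsto (fun t : ℝ => ENNReal.ofReal
        (∑ k ∈ Z, |Real.exp (-(4 * Real.pi ^ 2 * GD.sq k * t)) - 1| * ‖a k‖)) (𝓝[>] 0) (𝓝 0) := by
      have h1 : Continuous fun t : ℝ =>
          ∑ k ∈ Z, |Real.exp (-(4 * Real.pi ^ 2 * GD.sq k * t)) - 1| * ‖a k‖ :=
        continuous_finsetSum _ fun k _ => by fun_prop
      have h2 := (h1.tendsto 0).mono_left (nhdsWithin_le_nhds (s := Ioi (0 : ℝ)))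
      simp only [mul_zero, neg_zero, Real.exp_zero, sub_self, abs_zero, zero_mul,
        Finset.sum_const_zero] at h2
      have h3 := (ENNReal.continuous_ofReal.tendsto 0).comp h2
      rwa [ENNReal.ofReal_zero] at h3
    filter_upwards [(ENNReal.tendsto_nhds_zero.1 hη) (ε / 3) (pos_iff_ne_zero.2 hε3),
      self_mem_nhdsWithin] with t ht ht0
    have ht0' : 0 < t := ht0
    have e : (fun x => heat t f x - f x) = (heat t (fun y => f y - g y))
        + ((fun x => heat t g x - g x) + fun x => g x - f x) := by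
      funext x
      simp only [Pi.add_apply]
      rw [heat_sub hfi hgi ht0']
      ring
    rw [e]
    have m1 : AEStronglyMeasurable (heat t fun y => f y - g y) mc :=
      (heat_cont (hfi.sub hgi) ht0').aestronglyMeasurable
    have m2 : AEStronglyMeasurable (fun x => heat t g x - g x) mc :=
      ((heat_cont hgi ht0').sub hgc).aestronglyMeasurable
    have m3 : AEStronglyMeasurable (fun x => g x - f x) mc :=
      hgc.aestronglyMeasurable.sub hfi.aestronglyMeasurable
    have b1 : eLpNorm (heat t fun y => f y - g y) q mc ≤ ε / 3 :=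
      (hcon _ (hfi.sub hgi) t ht0').trans hfg
    have b2 : eLpNorm (fun x => heat t g x - g x) q mc ≤ ε / 3 := by
      refine (eLpNorm_le_of_ae_bound
        (C := ∑ k ∈ Z, |Real.exp (-(4 * Real.pi ^ 2 * GD.sq k * t)) - 1| * ‖a k‖)
        (Eventually.of_forall fun x => ?_)).trans ?_
      · rw [Real.norm_eq_abs]
        exact heat_trig hZ hh ht0' x
      · rw [measure_univ, ENNReal.one_rpow, one_mul]
        exact ht
    have b3 : eLpNorm (fun x => g x - f x) q mc ≤ ε / 3 := by
      refine le_trans (le_of_eq ?_) hfg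
      have : (fun x => g x - f x) = -fun x => f x - g x := by
        funext x
        simp
      rw [this, eLpNorm_neg]
    calc _ ≤ eLpNorm (heat t fun y => f y - g y) q mc
          + (eLpNorm (fun x => heat t g x - g x) q mc + eLpNorm (fun x => g x - f x) q mc) :=
          (eLpNorm_add_le m1 (m2.add m3) hq1).trans
            (add_le_add le_rfl (eLpNorm_add_le m2 m3 hq1))
      _ ≤ ε / 3 + (ε / 3 + ε / 3) := add_le_add b1 (add_le_add b2 b3)
      _ = ε := by
          rw [← add_assoc]
          exact ENNReal.add_thirds ε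
  have h1 : Tendsto (fun t => ∫⁻ x, ‖heat t f x - f x‖ₑ ^ p ∂mc) (𝓝[>] 0) (𝓝 0) := by
    have h2 := hlim.ennrpow_const p
    rw [ENNReal.zero_rpow_of_pos hp0] at h2
    refine h2.congr fun t => ?_
    rw [eLpNorm_eq_lintegral_rpow_enorm_toReal hq0 hqt, hqr, ← ENNReal.rpow_mul, one_div,
      inv_mul_cancel₀ hp0.ne', ENNReal.rpow_one]
  have h2 := (ENNReal.tendsto_toReal ENNReal.zero_ne_top).comp h1
  rw [ENNReal.toReal_zero] at h2
  refine h2.congr' ?_
  filter_upwards [self_mem_nhdsWithin] with t ht0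
  have ht0' : 0 < t := ht0
  rw [Function.comp_apply, integral_eq_lintegral_of_nonneg_ae
    (Eventually.of_forall fun x => Real.rpow_nonneg (abs_nonneg _) p)]
  · congr 1
    refine lintegral_congr fun x => ?_
    rw [← ENNReal.ofReal_rpow_of_nonneg (abs_nonneg _) hp0.le, ← Real.norm_eq_abs,
      ofReal_norm]
  · have hm : AEStronglyMeasurable (fun x => heat t f x - f x) mc :=
      (heat_cont hfi ht0').aestronglyMeasurable.sub hfi.aestronglyMeasurable
    exact (hm.norm.aemeasurable.pow_const p).aestronglyMeasurable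

end Pool.Agent.Run7.h969.WQ
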