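import Pool.Agent.Run7.h969.WQ.SeqQ

/-!
The decay of the stresses.
-/

set_option autoImplicit false

open MeasureTheory Set Filter Topology
open scoped ENNReal

namespace Pool.Agent.Run7.h969.WQ

open H459R3.NS Pool.Agent.Run7.h782 Pool.Agent.Run7.h782.GD Pool.Agent.Run7.h782.GS
open Pool.Agent.Run7.h782.WS Pool.Agent.Run7.h744.WS Pool.Agent.Run7.h969.GS
open Pool.Agent.Run7 Pool.Agent.Run7.h308.WS Pool.Agent.Run7.h969.WS
open Pool.Agent.Run7.h782.WQ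

/-- The exponents of one stage. -/
noncomputable def expo (Q : ℕ → ℝ) (N : ℕ) : Finset ℝ :=
  ((Finset.range (N + 1) ×ˢ Finset.range (N + 1)).image fun x => Q x.1 / 2 ^ x.2) ∪
    (Finset.range (N + 1)).image fun n => 2 * Q n

theorem mem_expo1 (Q : ℕ → ℝ) {N n m : ℕ} (hn : n ≤ N) (hm : m ≤ N) :
    Q n / 2 ^ m ∈ expo Q N := by
  refine Finset.mem_union_left _ (Finset.mem_image.2 ⟨(n, m), ?_, rfl⟩)
  rw [Finset.mem_product, Finset.mem_range, Finset.mem_range]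
  omega

theorem mem_expo2 (Q : ℕ → ℝ) {N n : ℕ} (hn : n ≤ N) : 2 * Q n ∈ expo Q N :=
  Finset.mem_union_right _ (Finset.mem_image.2 ⟨n, Finset.mem_range.2 (by omega), rfl⟩)

theorem expo_pos {Q : ℕ → ℝ} (hQ : ∀ n, 0 < Q n) (N : ℕ) : ∀ p ∈ expo Q N, 0 < p := by
  intro p hp
  rw [expo, Finset.mem_union, Finset.mem_image, Finset.mem_image] at hp
  rcases hp with ⟨x, -, rfl⟩ | ⟨n, -, rfl⟩
  · exact div_pos (hQ _) (by positivity)
  · have := hQ n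
    positivity

/-- The constant of one exponent at one stage. -/
noncomputable def cst (C : ℝ → ℝ) (ν : ℝ) (j : ℕ) (p : ℝ) : ℝ :=
  C p * ν ^ (p / 2) * ((1 / 4 : ℝ) ^ (j + 1)) ^ (1 - p / 2) * 2 ^ (p / 2)

/-- The size of the new stresses. -/
noncomputable def Gs (C : ℝ → ℝ) (ν : ℝ) (Q : ℕ → ℝ) (j : ℕ) : ℝ :=
  (1 / 4) ^ (j ^ 2) / (2 * (1 + ∑ n ∈ Finset.range (j + 1), ∑ m ∈ Finset.range (j + 1),
    cst C ν j (Q n / 2 ^ m)))

section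
variable {C : ℝ → ℝ} {ν : ℝ} {Q : ℕ → ℝ}

theorem cst_nonneg (hC : ∀ p, 0 < C p) (hν : 0 < ν) (j : ℕ) (p : ℝ) : 0 ≤ cst C ν j p := by
  have := hC p
  unfold cst
  positivity

theorem cst_sum_nonneg (hC : ∀ p, 0 < C p) (hν : 0 < ν) (j : ℕ) :
    0 ≤ ∑ n ∈ Finset.range (j + 1), ∑ m ∈ Finset.range (j + 1), cst C ν j (Q n / 2 ^ m) :=
  Finset.sum_nonneg fun _ _ => Finset.sum_nonneg fun _ _ => cst_nonneg hC hν _ _

theorem Gs_pos (hC : ∀ p, 0 < C p) (hν : 0 < ν) (j : ℕ) : 0 < Gs C ν Q j := by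
  have := cst_sum_nonneg (Q := Q) hC hν j
  unfold Gs
  positivity

theorem Gs_le (hC : ∀ p, 0 < C p) (hν : 0 < ν) (j : ℕ) : Gs C ν Q j ≤ (1 / 4) ^ (j ^ 2) := by
  have := cst_sum_nonneg (Q := Q) hC hν j
  unfold Gs
  exact div_le_self (by positivity) (by linarith)

theorem cst_Gs (hC : ∀ p, 0 < C p) (hν : 0 < ν) {j n m : ℕ} (hn : n ≤ j) (hm : m ≤ j) :
    cst C ν j (Q n / 2 ^ m) * Gs C ν Q j ≤ (1 / 4) ^ (j ^ 2) / 2 := by
  have h1 := cst_sum_nonneg (Q := Q) hC hν j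
  have h2 : cst C ν j (Q n / 2 ^ m)
      ≤ ∑ n ∈ Finset.range (j + 1), ∑ m ∈ Finset.range (j + 1), cst C ν j (Q n / 2 ^ m) := by
    refine (Finset.single_le_sum (f := fun m => cst C ν j (Q n / 2 ^ m))
      (fun _ _ => cst_nonneg hC hν _ _) (Finset.mem_range.2 (show m < j + 1 by omega))).trans ?_
    exact Finset.single_le_sum (f := fun n => ∑ m ∈ Finset.range (j + 1),
      cst C ν j (Q n / 2 ^ m)) (fun _ _ => Finset.sum_nonneg fun _ _ => cst_nonneg hC hν _ _)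
      (Finset.mem_range.2 (show n < j + 1 by omega))
  set c := ∑ n ∈ Finset.range (j + 1), ∑ m ∈ Finset.range (j + 1), cst C ν j (Q n / 2 ^ m)
    with hc
  have h3 : (0 : ℝ) < (1 / 4) ^ (j ^ 2) := by positivity
  rw [Gs, ← hc, mul_div_assoc', div_le_div_iff₀ (by positivity) (by norm_num)]
  nlinarith

theorem kap (j : ℕ) (s : ℝ) : ((1 / 4 : ℝ) ^ (j + 1)) ^ s
    = (1 / 4) ^ s * (1 / 4 : ℝ) ^ ((j : ℝ) * s) := by
  rw [← Real.rpow_natCast, ← Real.rpow_mul (by norm_num), ← Real.rpow_add (by norm_num)]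
  congr 1
  push_cast
  ring

variable {rr : ℕ → Mf} {A : ℕ → ℝ → Cf} {ε : ℕ → ℝ}

theorem anti_r1 (hQ : StmQ0) (hA : ∀ n, Tg ν (A n))
    (hsu : ∀ j, ∃ Z : Finset K3, ∀ i i', ∀ k ∉ Z, rr j i i' k = 0) (n m : ℕ) :
    R1 (anti (A n 0 - dvr (rr m))) := by
  obtain ⟨-, -, -, -, -, -, -, -, q9, -⟩ := hQ
  obtain ⟨Z, hZ⟩ := hsu m
  have l1 : L1 (A n 0 - dvr (rr m)) :=
    (Maj.l1 (hA n).maj le_rfl).sub (L1.of_supp (dvr_supp hZ))
  exact (q9 _ (l1_div l1)).1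

/-- The stress in terms of the previous stage. -/
theorem str_le (hQ : StmQ0) (hA : ∀ n, Tg ν (A n))
    (hsu : ∀ j, ∃ Z : Finset K3, ∀ i i', ∀ k ∉ Z, rr j i i' k = 0) {p : ℝ} (hp : 0 < p) (j : ℕ) :
    rp p (str rr A (j + 1)) ≤ 2 ^ p * (rp p (rr (j + 2) - rr (j + 1))
      + rp p (anti (A (j + 1) 0 - dvr (rr (j + 1))))) := by
  have hQ' := hQ
  obtain ⟨q1, -⟩ := hQ
  have hr1 : ∀ m, R1 (rr m) := fun m => by
    obtain ⟨Z, hZ⟩ := hsu m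
    exact r1_of_supp hZ
  have h1 := anti_r1 hQ' hA hsu (j + 1) (j + 1)
  have h2 : R1 (-anti (A (j + 1) 0 - dvr (rr (j + 1)))) := fun i i' => by
    refine (h1 i i').congr fun k => ?_
    simp only [Pi.neg_apply, norm_neg]
  have h3 := q1 p _ _ hp (h744.WQ.r1sub (hr1 (j + 2)) (hr1 (j + 1))) h2
  rw [rp_neg, ← sub_eq_add_neg] at h3
  exact h3

variable (hQ : StmQ0) (hC : ∀ p, 0 < C p) (hν : 0 < ν) (hQ1 : ∀ n, 1 ≤ Q n)
  (hA : ∀ n, Tg ν (A n)) (hsu : ∀ j, ∃ Z : Finset K3, ∀ i i', ∀ k ∉ Z, rr j i i' k = 0)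
  (hst : ∀ n, StpQ C ν ((1 / 4) ^ n) ((1 / 4) ^ (n ^ 2 + 1)) (expo Q n) (A n) (dvr (rr (n + 1)))
    (str rr A n) (ε n) (A (n + 1)))
  (hG : ∀ j, ∀ n ≤ j, ∀ m ≤ j + 1, rp (Q n / 2 ^ m) (rr (j + 2) - rr (j + 1)) ≤ Gs C ν Q j)
include hQ hC hν hQ1 hA hsu hst hG

/-- One step of the recursion. -/
theorem rec_ineq {j n m : ℕ} (hn : n ≤ j) (hm : m ≤ j) :
    rp (Q n / 2 ^ m) (anti (A (j + 2) 0 - dvr (rr (j + 2))))
      ≤ (C (Q n / 2 ^ m) * ν ^ (Q n / 2 ^ (m + 1)) * (1 / 4) ^ (1 - Q n / 2 ^ (m + 1))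
          * 2 ^ (Q n / 2 ^ (m + 1))) * (1 / 4 : ℝ) ^ ((j : ℝ) * (1 - Q n / 2 ^ (m + 1)))
        * rp (Q n / 2 ^ (m + 1)) (anti (A (j + 1) 0 - dvr (rr (j + 1)))) + (1 / 4) ^ (j ^ 2) := by
  have hQ0 : ∀ n, 0 < Q n := fun n => lt_of_lt_of_le one_pos (hQ1 n)
  set p : ℝ := Q n / 2 ^ m with hp
  have hp2 : Q n / 2 ^ (m + 1) = p / 2 := by rw [hp, pow_succ, div_div]
  have hp0 : 0 < p := div_pos (hQ0 n) (by positivity)
  rw [hp2]
  have h1 := (hst (j + 1)).rp0 p (mem_expo1 Q (by omega) (by omega))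
  have h2 := str_le (p := p / 2) hQ hA hsu (by positivity) j
  have h3 := hG j n hn (m + 1) (by omega)
  rw [hp2] at h3
  have h4 := cst_Gs (Q := Q) hC hν hn hm
  rw [← hp] at h4
  set x : ℝ := rp (p / 2) (anti (A (j + 1) 0 - dvr (rr (j + 1)))) with hx
  set K : ℝ := C p * ν ^ (p / 2) * ((1 / 4 : ℝ) ^ (j + 1)) ^ (1 - p / 2) with hK
  have hK0 : 0 ≤ K := by
    have := hC p
    positivity
  have h5 : ((1 : ℝ) / 4) ^ ((j + 1) ^ 2 + 1) ≤ (1 / 4) ^ (j ^ 2) / 2 := by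
    have e1 : ((1 : ℝ) / 4) ^ ((j + 1) ^ 2 + 1) ≤ (1 / 4) ^ (j ^ 2 + 1) :=
      pow_le_pow_of_le_one (by norm_num) (by norm_num) (by nlinarith)
    have e2 : ((1 : ℝ) / 4) ^ (j ^ 2 + 1) = (1 / 4) ^ (j ^ 2) / 4 := by
      rw [pow_succ]
      ring
    have e3 : (0 : ℝ) < (1 / 4) ^ (j ^ 2) := by positivity
    linarith
  have h6 : K * rp (p / 2) (str rr A (j + 1)) ≤ K * (2 ^ (p / 2) * (Gs C ν Q j + x)) := by
    refine mul_le_mul_of_nonneg_left (h2.trans ?_) hK0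
    exact mul_le_mul_of_nonneg_left (by linarith) (by positivity)
  have h7 : K * (2 ^ (p / 2) * (Gs C ν Q j + x))
      = cst C ν j p * Gs C ν Q j + K * 2 ^ (p / 2) * x := by
    rw [cst, ← hK]
    ring
  have h8 : C p * ν ^ (p / 2) * (1 / 4) ^ (1 - p / 2) * 2 ^ (p / 2)
      * (1 / 4 : ℝ) ^ ((j : ℝ) * (1 - p / 2)) * x = K * 2 ^ (p / 2) * x := by
    rw [hK, kap]
    ring
  rw [h8]
  refine h1.trans ?_
  linarith

theorem dec (hRec : StmRecQ) (n : ℕ) (e : ℝ) : ∃ B : ℝ, 0 ≤ B ∧ ∀ j : ℕ,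
    rp (Q n) (anti (A (j + 1) 0 - dvr (rr (j + 1)))) ≤ B * (1 / 4 : ℝ) ^ (e * j) := by
  have hQ' := hQ
  obtain ⟨q1, q2, q3, q4, -⟩ := hQ'
  have hQ0 : ∀ n, 0 < Q n := fun n => lt_of_lt_of_le one_pos (hQ1 n)
  obtain ⟨B, hB⟩ := hRec (fun j m => rp (Q n / 2 ^ m) (anti (A (j + 1) 0 - dvr (rr (j + 1)))))
    (fun m => C (Q n / 2 ^ m) * ν ^ (Q n / 2 ^ (m + 1)) * (1 / 4) ^ (1 - Q n / 2 ^ (m + 1))
          * 2 ^ (Q n / 2 ^ (m + 1))) (Q n) (hQ0 n) (fun j m => h744.WQ.rp_nonneg _ _)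
    (fun m => by have := hC (Q n / 2 ^ m); positivity)
    (fun j m m' hm => q4 _ _ _ (div_pos (hQ0 n) (by positivity))
      (div_le_div_of_nonneg_left (hQ0 n).le (by positivity)
        (pow_le_pow_right₀ (by norm_num) hm)) (anti_r1 hQ hA hsu _ _))
    (fun m => ⟨max n m, fun j hj => by
      refine (rec_ineq hQ hC hν hQ1 hA hsu hst hG ((le_max_left n m).trans hj)
        ((le_max_right n m).trans hj)).trans (le_of_eq ?_)
      rfl⟩) e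
  refine ⟨|B|, abs_nonneg _, fun j => ?_⟩
  have h1 := hB j
  simp only [pow_zero, div_one] at h1
  exact h1.trans (mul_le_mul_of_nonneg_right (le_abs_self B) (by positivity))

theorem decs (hRec : StmRecQ) (n : ℕ) (e : ℝ) : ∃ B : ℝ, 0 ≤ B ∧ ∀ j : ℕ, n ≤ j →
    rp (Q n) (str rr A (j + 1)) ≤ B * (1 / 4 : ℝ) ^ (e * j) := by
  have hQ0 : ∀ n, 0 < Q n := fun n => lt_of_lt_of_le one_pos (hQ1 n)
  obtain ⟨B, hB0, hB⟩ := dec hQ hC hν hQ1 hA hsu hst hG hRec n e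
  refine ⟨2 ^ Q n * ((1 / 4) ^ (-(e ^ 2)) + B), by positivity, fun j hj => ?_⟩
  have h1 := str_le hQ hA hsu (hQ0 n) j
  have h2 := hG j n hj 0 (Nat.zero_le _)
  rw [pow_zero, div_one] at h2
  have h3 := Gs_le (Q := Q) hC hν j
  have h4 : ((1 : ℝ) / 4) ^ (j ^ 2) ≤ (1 / 4) ^ (-(e ^ 2)) * (1 / 4) ^ (e * j) := by
    rw [← Real.rpow_natCast, ← Real.rpow_add (by norm_num)]
    refine Real.rpow_le_rpow_of_exponent_ge (by norm_num) (by norm_num) ?_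
    push_cast
    nlinarith [sq_nonneg (e - j), sq_nonneg (e : ℝ), sq_nonneg (j : ℝ)]
  refine h1.trans ?_
  rw [mul_assoc, add_mul]
  refine mul_le_mul_of_nonneg_left ?_ (by positivity)
  have h5 := hB j
  linarith

end

end Pool.Agent.Run7.h969.WQ
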