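import Pool.Agent.Run7.h744.WQ.Q0
import Pool.Agent.Run7.h969.WS.BesG

/-!
Elementary properties of matrix fields, and continuity in time of the norms.
-/

set_option autoImplicit false

open MeasureTheory Set Filter Topology
open scoped ContDiff ComplexConjugate NNReal ENNReal

namespace Pool.Agent.Run7.h969.WQ

open H459R3.NS Pool.Agent.Run7.h782 Pool.Agent.Run7.h782.GD Pool.Agent.Run7.h782.GS
open Pool.Agent.Run7.h782.WS Pool.Agent.Run7.h782.WQ

section
variable {r r' : Mf}

theorem sy_sub (h : Sy r) (h' : Sy r') : Sy (r - r') where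
  sym i j k := by
    simp only [Pi.sub_apply]
    rw [h.sym, h'.sym]
  herm i j k := by
    simp only [Pi.sub_apply]
    rw [h.herm, h'.herm, map_sub]

theorem sy_zero : Sy (0 : Mf) where
  sym i j k := rfl
  herm i j k := by simp

theorem r1_zero : R1 (0 : Mf) := fun i j => by simp

theorem r1_of_supp {Z : Finset K3} (h : ∀ i j, ∀ k ∉ Z, r i j k = 0) : R1 r := fun i j =>
  summable_of_ne_finset_zero (s := Z) fun k hk => by rw [h i j k hk, norm_zero]

theorem dvr_sub (r r' : Mf) : dvr (r - r') = dvr r - dvr r' := by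
  funext k
  rw [Pi.sub_apply, dvr, dvr, dvr, ← smul_sub, ← prj_sub]
  congr 2
  funext i
  simp only [Pi.sub_apply]
  rw [← Finset.sum_sub_distrib]
  exact Finset.sum_congr rfl fun j _ => mul_sub _ _ _

theorem dvr_zero_mode (r : Mf) : dvr r 0 = 0 := by
  rw [dvr]
  have : (fun i => ∑ j, (((0 : K3) j : ℤ) : ℂ) * r i j 0) = 0 := by
    funext i
    simp
  rw [this, prj_zero, smul_zero]

theorem dvr_zero : dvr (0 : Mf) = 0 := by
  funext k
  rw [dvr]
  have : (fun i => ∑ j, ((k j : ℤ) : ℂ) * (0 : Mf) i j k) = 0 := by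
    funext i
    simp
  rw [this, prj_zero, smul_zero]
  rfl

theorem dvr_dv (r : Mf) : Dv (dvr r) := by
  intro k
  rw [dvr, kd_smul, kd_prj, mul_zero]

theorem dvr_herm (h : Sy r) : Herm (dvr r) := by
  intro k i
  rw [dvr, dvr]
  have e : (fun i => ∑ j, (((-k) j : ℤ) : ℂ) * r i j (-k))
      = fun i => conj ((fun i => -∑ j, ((k j : ℤ) : ℂ) * r i j k) i) := by
    funext i
    simp only [map_neg, map_sum, map_mul]
    rw [← Finset.sum_neg_distrib]
    refine Finset.sum_congr rfl fun j _ => ?_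
    have e5 : conj ((k j : ℤ) : ℂ) = ((k j : ℤ) : ℂ) := map_intCast _ _
    rw [h.herm, Pi.neg_apply, e5]
    push_cast
    ring
  rw [e, prj_neg_conj]
  have e2 : prj k (fun i => -∑ j, ((k j : ℤ) : ℂ) * r i j k)
      = -prj k (fun i => ∑ j, ((k j : ℤ) : ℂ) * r i j k) := by
    have e3 : (fun i => -∑ j, ((k j : ℤ) : ℂ) * r i j k)
        = (-1 : ℂ) • (fun i => ∑ j, ((k j : ℤ) : ℂ) * r i j k) := by
      funext i
      simp
    rw [e3, prj_smul]
    simp
  rw [e2]
  simp only [Pi.smul_apply, Pi.neg_apply, smul_eq_mul, map_neg, map_mul, Complex.conj_ofReal,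
    Complex.conj_I, Complex.conj_ofNat]
  ring

theorem dvr_supp {Z : Finset K3} (h : ∀ i j, ∀ k ∉ Z, r i j k = 0) : ∀ k ∉ Z, dvr r k = 0 := by
  intro k hk
  rw [dvr]
  have : (fun i => ∑ j, ((k j : ℤ) : ℂ) * r i j k) = 0 := by
    funext i
    simp [h i _ k hk]
  rw [this, prj_zero, smul_zero]

theorem coef_rp (h : R1 r) (i j : Fin 3) (k : K3) : ‖r i j k‖ ≤ rp 1 r := by
  have e := integral_ee_S (-k) (h744.WQ.r1s h i j)
  rw [neg_neg] at e
  rw [← e]
  have hc := S_continuous (h744.WQ.r1s h i j)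
  calc ‖∫ x in cube, ee (-k) x * S (r i j) x‖ ≤ ∫ x in cube, ‖S (r i j) x‖ := by
        refine (norm_integral_le_integral_norm _).trans (le_of_eq ?_)
        refine integral_congr_ae (Eventually.of_forall fun x => ?_)
        simp only [norm_mul, norm_ee, one_mul]
    _ ≤ ∫ x in cube, rn r x ^ (1 : ℝ) := by
        refine integral_mono (integrableOn_cube hc.norm) ?_ fun x => ?_
        · exact h744.WQ.int_rpow one_pos (h744.WQ.rn_continuous h)
        · rw [Real.rpow_one]
          refine (Finset.single_le_sum (f := fun j => ‖S (r i j) x‖)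
            (fun j _ => norm_nonneg _) (Finset.mem_univ j)).trans ?_
          exact Finset.single_le_sum (f := fun i => ∑ j, ‖S (r i j) x‖)
            (fun i _ => Finset.sum_nonneg fun j _ => norm_nonneg _) (Finset.mem_univ i)
    _ = rp 1 r := rfl

theorem dvr_le (h : R1 r) (k : K3) : ‖dvr r k‖ ≤ 24 * Real.pi * len k * rp 1 r := by
  have hpi := Real.pi_pos
  have hr := h744.WQ.rp_nonneg 1 r
  rw [dvr, norm_smul]
  have e1 : ‖(2 * Real.pi * Complex.I : ℂ)‖ = 2 * Real.pi := by
    rw [norm_mul, norm_mul, Complex.norm_I, Complex.norm_real, Real.norm_of_nonneg hpi.le]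
    norm_num
  rw [e1]
  have hl := len_nonneg k
  have h1 : ‖fun i => ∑ j, ((k j : ℤ) : ℂ) * r i j k‖ ≤ 3 * (len k * rp 1 r) := by
    refine (pi_norm_le_iff_of_nonneg (by positivity)).2 fun i => ?_
    have h3 : ‖∑ j, ((k j : ℤ) : ℂ) * r i j k‖ ≤ ∑ _j : Fin 3, len k * rp 1 r := by
      refine norm_sum_le_of_le _ fun j _ => ?_
      rw [norm_mul, Complex.norm_intCast]
      exact mul_le_mul (abs_le_len k j) (coef_rp h i j k) (norm_nonneg _) hl
    rwa [Finset.sum_const, Finset.card_univ, Fintype.card_fin, nsmul_eq_mul] at h3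
  have h2 := norm_prj_le k (fun i => ∑ j, ((k j : ℤ) : ℂ) * r i j k)
  calc 2 * Real.pi * ‖prj k (fun i => ∑ j, ((k j : ℤ) : ℂ) * r i j k)‖
      ≤ 2 * Real.pi * (4 * (3 * (len k * rp 1 r))) := by
        refine mul_le_mul_of_nonneg_left ?_ (by positivity)
        linarith
    _ = _ := by ring

theorem rp_neg (p : ℝ) (r : Mf) : rp p (-r) = rp p r := by
  unfold rp
  congr 1
  funext x
  congr 1
  unfold rn
  refine Finset.sum_congr rfl fun i _ => Finset.sum_congr rfl fun j _ => ?_
  have : S ((-r) i j) x = -S (r i j) x := by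
    unfold S
    rw [← tsum_neg]
    exact tsum_congr fun k => by
      simp only [Pi.neg_apply]
      ring
  rw [this, norm_neg]

end

/-- Continuity in time. -/
theorem fp_contOn (hQ : StmQ0) {q : ℝ} (hq : 0 < q) {a : ℝ → Cf} (hm : Maj a) (hc : Cnt a) :
    ContinuousOn (fun t => fp q (a t)) (Ici 0) := by
  obtain ⟨-, -, -, -, -, -, -, h8, -⟩ := hQ
  have key : Continuous fun t => fp q (a (max t 0)) := by
    rw [continuous_iff_seqContinuous]
    intro x t hx
    have hl : ∀ s : ℝ, L1 (a (max s 0)) := fun s => hm.l1 (le_max_right _ _)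
    refine h8 q (a (max t 0)) hq (hl t) (fun m => a (max (x m) 0)) (fun m => hl _) ?_
    have hm' : Maj fun s => a s - a (max t 0) := by
      refine Maj.sub hm ?_
      intro m T
      obtain ⟨B, hB, h⟩ := hm m (max t 0)
      exact ⟨B, hB, fun _ _ k => h (max t 0) ⟨le_max_right _ _, le_rfl⟩ k⟩
    have hcn' : Cnt fun s => a s - a (max t 0) := Cnt.sub hc fun k => continuousOn_const
    have h1 := (hm'.cont hcn' wt_one) (max t 0) (le_max_right t 0)
    have h2 : Tendsto (fun m => max (x m) 0) atTop (𝓝[Ici 0] (max t 0)) := by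
      refine tendsto_nhdsWithin_iff.2 ⟨?_, Eventually.of_forall fun m => mem_Ici.2 (le_max_right _ _)⟩
      exact ((continuous_id.max continuous_const).tendsto t).comp hx
    have h3 := h1.tendsto.comp h2
    have h4 : GS.W (fun _ => 1) (a (max t 0) - a (max t 0)) = 0 := by
      rw [GS.W]
      simp
    rw [h4] at h3
    refine h3.congr fun m => ?_
    simp only [Function.comp_apply, GS.W]
    exact tsum_congr fun k => by rw [one_mul, Pi.sub_apply]
  refine key.continuousOn.congr fun t ht => ?_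
  simp only
  rw [max_eq_left ht]

/-- From interval integrals to extended integrals. -/
theorem lint_of_int {f : ℝ → ℝ} (hf : ContinuousOn f (Ici 0)) (h0 : ∀ t, 0 ≤ f t) {K : ℝ}
    (h : ∀ T, 0 ≤ T → ∫ t in (0 : ℝ)..T, f t ≤ K) :
    ∫⁻ t in Ioc (0 : ℝ) 1, ENNReal.ofReal (f t) ≤ ENNReal.ofReal K := by
  have h1 : IntegrableOn f (Ioc (0 : ℝ) 1) :=
    ((hf.mono Icc_subset_Ici_self).integrableOn_compact isCompact_Icc).mono_set
      Ioc_subset_Icc_self
  rw [← ofReal_integral_eq_lintegral_ofReal h1 (Eventually.of_forall h0)]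
  refine ENNReal.ofReal_le_ofReal ?_
  have h2 := h 1 zero_le_one
  rwa [intervalIntegral.integral_of_le zero_le_one] at h2

end Pool.Agent.Run7.h969.WQ
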