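import Pool.Agent.Run7.h782.WQ.Defs
import Pool.Agent.Run7.h969.WS.AppP

/-!
Norms of `L^q` of waves.
-/

set_option autoImplicit false

open MeasureTheory Set Filter Topology
open scoped ContDiff ComplexConjugate NNReal

namespace Pool.Agent.Run7.h969.WQ

open H459R3.NS Pool.Agent.Run7.h782 Pool.Agent.Run7.h782.GD Pool.Agent.Run7.h782.GS
open Pool.Agent.Run7.h969.GG Pool.Agent.Run7.h782.WS Pool.Agent.Run7.h782.WQ
open Pool.Agent.Run7.h969.WS

theorem fn_nonneg (c : Cf) (x : V) : 0 ≤ fn c x := Finset.sum_nonneg fun _ _ => norm_nonneg _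

theorem rn_nonneg (r : Mf) (x : V) : 0 ≤ rn r x :=
  Finset.sum_nonneg fun _ _ => Finset.sum_nonneg fun _ _ => norm_nonneg _

theorem fp_nonneg (p : ℝ) (c : Cf) : 0 ≤ fp p c :=
  integral_nonneg fun x => Real.rpow_nonneg (fn_nonneg c x) p

theorem rp_nonneg (p : ℝ) (r : Mf) : 0 ≤ rp p r :=
  integral_nonneg fun x => Real.rpow_nonneg (rn_nonneg r x) p

theorem S_const_mul (c : ℂ) (a : K3 → ℂ) (x : V) : S (fun k => c * a k) x = c * S a x := by
  unfold S
  rw [← tsum_mul_left]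
  exact tsum_congr fun k => by rw [mul_assoc]

theorem fn_smul (c : ℝ) (a : Cf) (x : V) : fn ((c : ℂ) • a) x = |c| * fn a x := by
  unfold fn
  rw [Finset.mul_sum]
  refine Finset.sum_congr rfl fun i _ => ?_
  have e : (fun k => ((c : ℂ) • a) k i) = fun k => (c : ℂ) * a k i := rfl
  rw [e, S_const_mul, norm_mul, Complex.norm_real, Real.norm_eq_abs]

theorem fp_smul {q c : ℝ} (hc : 0 ≤ c) (a : Cf) : fp q ((c : ℂ) • a) = c ^ q * fp q a := by
  unfold fp
  rw [← integral_const_mul]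
  congr 1
  funext x
  rw [fn_smul, abs_of_nonneg hc, Real.mul_rpow hc (fn_nonneg a x)]

theorem rn_smul {c : ℝ} (hc : 0 ≤ c) (w : Cf) (x : V) :
    rn (anti ((c : ℂ) • w)) x = c * rn (anti w) x := by
  unfold rn
  rw [Finset.mul_sum]
  refine Finset.sum_congr rfl fun i _ => ?_
  rw [Finset.mul_sum]
  refine Finset.sum_congr rfl fun j _ => ?_
  have e : anti ((c : ℂ) • w) i j = fun k => (c : ℂ) * anti w i j k :=
    funext fun k => anti_smul c w i j k
  rw [e, S_const_mul, norm_mul, Complex.norm_real, Real.norm_of_nonneg hc]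

theorem rp_smul {p c : ℝ} (hc : 0 ≤ c) (w : Cf) :
    rp p (anti ((c : ℂ) • w)) = c ^ p * rp p (anti w) := by
  unfold rp
  rw [← integral_const_mul]
  congr 1
  funext x
  rw [rn_smul hc, Real.mul_rpow hc (rn_nonneg _ x)]

theorem fn_sh (m : K3) (s : Cf) (x : V) : fn (sh m s) x = fn s x := by
  unfold fn
  refine Finset.sum_congr rfl fun i _ => ?_
  have e : S (fun k => sh m s k i) x = ee m x * S (fun k => s k i) x := by
    unfold S
    rw [← tsum_mul_left, ← (Equiv.subRight m).tsum_eq fun k => ee m x * (s k i * ee k x)]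
    refine tsum_congr fun k => ?_
    have h1 : ee k x = ee m x * ee (k - m) x := by
      rw [← ee_add_left]
      congr 1
      abel
    show s (k - m) i * ee k x = ee m x * (s (k - m) i * ee (k - m) x)
    rw [h1]
    ring
  rw [e, norm_mul, norm_ee, one_mul]

theorem fp_sh (q : ℝ) (m : K3) (s : Cf) : fp q (sh m s) = fp q s := by
  unfold fp
  simp_rw [fn_sh]

/-- Minkowski for finite sums. -/
theorem fp_sum (hM : ∀ (q : ℝ) (c d : Cf), 1 ≤ q → L1 c → L1 d →
    fp q (c + d) ^ (1 / q) ≤ fp q c ^ (1 / q) + fp q d ^ (1 / q)) {q : ℝ} (hq : 1 ≤ q)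
    {ι : Type*} (A : Finset ι) {a : ι → Cf} (ha : ∀ i ∈ A, L1 (a i)) :
    fp q (∑ i ∈ A, a i) ^ (1 / q) ≤ ∑ i ∈ A, fp q (a i) ^ (1 / q) := by
  classical
  have hq0 : q ≠ 0 := by positivity
  have hz : fp q 0 = 0 := by
    unfold fp
    have e : ∀ x, fn 0 x ^ q = 0 := by
      intro x
      have : fn 0 x = 0 := by
        unfold fn S
        simp
      rw [this, Real.zero_rpow hq0]
    simp_rw [e]
    simp
  induction A using Finset.induction_on with
  | empty =>
    rw [Finset.sum_empty, Finset.sum_empty, hz, Real.zero_rpow (by positivity)]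
  | insert i A hi ih =>
    rw [Finset.sum_insert hi, Finset.sum_insert hi]
    have hA : L1 (∑ j ∈ A, a j) := by
      have : ∀ (B : Finset ι), (∀ i ∈ B, L1 (a i)) → L1 (∑ j ∈ B, a j) := by
        intro B
        induction B using Finset.induction_on with
        | empty =>
          intro _
          rw [Finset.sum_empty]
          exact L1.of_supp (B := ∅) fun _ _ => rfl
        | insert i B hi ih =>
          intro h
          rw [Finset.sum_insert hi]
          exact (h i (Finset.mem_insert_self i B)).add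
            (ih fun j hj => h j (Finset.mem_insert_of_mem hj))
      exact this A fun j hj => ha j (Finset.mem_insert_of_mem hj)
    refine (hM q _ _ hq (ha i (Finset.mem_insert_self i A)) hA).trans ?_
    exact add_le_add le_rfl (ih fun j hj => ha j (Finset.mem_insert_of_mem hj))

theorem root_pow {q x : ℝ} (hq : 0 < q) (hx : 0 ≤ x) : (x ^ q) ^ (1 / q) = x := by
  rw [← Real.rpow_mul hx, mul_one_div_cancel hq.ne', Real.rpow_one]

theorem fp_smul_root {q c : ℝ} (hq : 0 < q) (hc : 0 ≤ c) (a : Cf) :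
    fp q ((c : ℂ) • a) ^ (1 / q) = c * fp q a ^ (1 / q) := by
  rw [fp_smul hc, Real.mul_rpow (Real.rpow_nonneg hc q) (fp_nonneg q a), root_pow hq hc]

theorem sq_root {q x : ℝ} (hx : 0 ≤ x) : (x ^ (1 / q)) ^ 2 = x ^ (2 / q) := by
  rw [← Real.rpow_natCast, ← Real.rpow_mul hx]
  congr 1
  push_cast
  ring

/-- The norm is at most the sum norm. -/
theorem fp_le_N0 (hM : ∀ (p : ℝ) (c : Cf), 0 < p → L1 c → fp p c ≤ (3 * ∑' k, ‖c k‖) ^ p)
    {q : ℝ} (hq : 0 < q) {a : Cf} (ha : L1 a) : fp q a ^ (1 / q) ≤ 3 * N0 a := by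
  have h1 := hM q a hq ha
  rw [← N0_eq] at h1
  have h2 : 0 ≤ 3 * N0 a := mul_nonneg (by norm_num) (N0_nonneg a)
  refine (Real.rpow_le_rpow (fp_nonneg q a) h1 (by positivity)).trans (le_of_eq ?_)
  exact root_pow hq h2

/-- The norms of the waves. -/
theorem fp_wv (hQ : StmQ0) {q : ℝ} (hq : 1 ≤ q) {M : ℕ} {n : K3} {s : Cf} {P : Finset K3}
    {Λ ℓ : ℝ} (hP : ∀ p ∉ P, s p = 0) (hΛ : ∀ p ∈ P, len p ≤ Λ) (hn : ∀ p, kd n (s p) = 0)
    (hm : ℓ ≤ len (M • n)) (hℓ : 2 * Λ ≤ ℓ) (hℓ0 : 0 < ℓ) :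
    fp q (wv M n s) ^ (1 / q) ≤ 2 * fp q s ^ (1 / q) + 36 * Λ / ℓ * N0 s := by
  obtain ⟨-, -, -, -, -, h6, h7, -⟩ := hQ
  have hq0 : 0 < q := by linarith
  have hs : L1 s := L1.of_supp hP
  have hkm : ∀ p, kd (M • n) (s p) = 0 := fun p => by rw [kd_nsmul, hn, mul_zero]
  have hkm' : ∀ p, kd (-(M • n)) (s p) = 0 := fun p => by rw [kd_neg_left, hkm, neg_zero]
  have hm' : ℓ ≤ len (-(M • n)) := by rwa [len_neg]
  have one : ∀ m : K3, ℓ ≤ len m → (∀ p, kd m (s p) = 0) →
      fp q (sp m s) ^ (1 / q) ≤ fp q s ^ (1 / q) + 18 * Λ / ℓ * N0 s := by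
    intro m hm hn
    have e : sp m s = sh m s + (sp m s - sh m s) := by abel
    rw [e]
    have hd : L1 (sp m s - sh m s) := by
      refine Summable.of_nonneg_of_le (fun k => norm_nonneg _)
        (sp_sub_sh hP hΛ hn hm hℓ hℓ0) ((L1.sh hs m).mul_left _)
    refine (h7 q _ _ hq (L1.sh hs m) hd).trans (add_le_add (le_of_eq ?_) ?_)
    · rw [fp_sh]
    · refine (fp_le_N0 h6 hq0 hd).trans ?_
      have h8 := N0_sub_le hP hΛ hn hm hℓ hℓ0
      calc 3 * N0 (sp m s - sh m s) ≤ 3 * (6 * Λ / ℓ * N0 s) :=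
            mul_le_mul_of_nonneg_left h8 (by norm_num)
        _ = _ := by ring
  rw [wv_eq]
  refine (h7 q _ _ hq (L1.sp hs _) (L1.sp hs _)).trans ?_
  have a1 := one _ hm hkm
  have a2 := one _ hm' hkm'
  refine (add_le_add a1 a2).trans (le_of_eq ?_)
  ring

/-- Continuity in time. -/
theorem fp_cont (hQ : StmQ0) {q : ℝ} (hq : 0 < q) {v : ℝ → Cf} {B : Finset K3}
    (hB : ∀ t, ∀ k ∉ B, v t k = 0) (hc : ∀ k, Continuous fun t => v t k) :
    Continuous fun t => fp q (v t) := by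
  obtain ⟨-, -, -, -, -, -, -, h8, -⟩ := hQ
  rw [continuous_iff_seqContinuous]
  intro x t hx
  refine h8 q (v t) hq (L1.of_supp (hB t)) (fun m => v (x m)) (fun m => L1.of_supp (hB _)) ?_
  have e : ∀ m, ∑' k, ‖v (x m) k - v t k‖ = ∑ k ∈ B, ‖v (x m) k - v t k‖ := fun m =>
    tsum_eq_sum fun k hk => by rw [hB _ k hk, hB _ k hk, sub_zero, norm_zero]
  simp_rw [e]
  have h1 : Tendsto (fun m => ∑ k ∈ B, ‖v (x m) k - v t k‖) atTop
      (𝓝 (∑ k ∈ B, ‖v t k - v t k‖)) := by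
    refine tendsto_finsetSum _ fun k _ => ?_
    exact ((((hc k).tendsto t).comp hx).sub tendsto_const_nhds).norm
  simpa using h1

end Pool.Agent.Run7.h969.WQ
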