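import Pool.Agent.Run7.h969.WQ.OutQ
import Pool.Agent.Run7.h969.WQ.Lq
import Pool.Agent.Run7.h308.WS.IterW

/-!
The norms of `L^q` of the limit.
-/

set_option autoImplicit false

open MeasureTheory Set Filter Topology
open scoped ENNReal

namespace Pool.Agent.Run7.h969.WQ

open H459R3.NS Pool.Agent.Run7.h782 Pool.Agent.Run7.h782.GD Pool.Agent.Run7.h782.GS
open Pool.Agent.Run7.h782.WS Pool.Agent.Run7.h744.WS Pool.Agent.Run7.h969.GS
open Pool.Agent.Run7 Pool.Agent.Run7.h308.WS Pool.Agent.Run7.h969.WS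
open Pool.Agent.Run7.h782.WQ

/-- Convergence in the sum norm at one time. -/
theorem lim_sum {A : ℕ → ℝ → Cf} {b : ℝ → Cf} {ε : ℕ → ℝ} {t : ℝ} (ht : 0 < t)
    (hlim : ∀ k, Tendsto (fun j => A (j + 1) t k) atTop (𝓝 (b t k)))
    (hpt : ∀ n, Sd (A (n + 1) t) (A n t) ≤ ENNReal.ofReal (ε n / Real.sqrt t))
    (hε0 : ∀ n, 0 < ε n) (hε1 : ∀ n, ε n ≤ (1 / 2) ^ n) :
    Tendsto (fun m => ∑' k, ‖A m t k - b t k‖) atTop (𝓝 0) := by
  have hst := Real.sqrt_pos.2 ht
  have hεs : Summable fun n => ε n / Real.sqrt t :=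
    (Summable.of_nonneg_of_le (fun n => (hε0 n).le) hε1
      (summable_geometric_of_lt_one (by norm_num) (by norm_num))).div_const _
  have hfin : ∑' n, ENNReal.ofReal (ε n / Real.sqrt t) ≠ ⊤ := by
    rw [← ENNReal.ofReal_tsum_of_nonneg (fun n => div_nonneg (hε0 n).le hst.le) hεs]
    exact ENNReal.ofReal_ne_top
  have h1 : ∀ m, ∑' k, ENNReal.ofReal ‖A m t k - b t k‖
      ≤ ∑' i, ENNReal.ofReal (ε (i + m) / Real.sqrt t) := by
    intro m
    calc ∑' k, ENNReal.ofReal ‖A m t k - b t k‖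
        ≤ ∑' k, ∑' i, ENNReal.ofReal ‖A (m + i + 1) t k - A (m + i) t k‖ := by
          refine ENNReal.tsum_le_tsum fun k => ?_
          rw [norm_sub_rev]
          exact tel hlim m k
      _ = ∑' i, Sd (A (m + i + 1) t) (A (m + i) t) := ENNReal.tsum_comm
      _ ≤ _ := ENNReal.tsum_le_tsum fun i => by
          rw [add_comm i m]
          exact hpt (m + i)
  have h2 : Tendsto (fun m => ∑' k, ENNReal.ofReal ‖A m t k - b t k‖) atTop (𝓝 0) :=
    tendsto_of_tendsto_of_tendsto_of_le_of_le tendsto_const_nhds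
      (ENNReal.tendsto_sum_nat_add _ hfin) (fun _ => zero_le) h1
  have h3 := (ENNReal.tendsto_toReal ENNReal.zero_ne_top).comp h2
  rw [ENNReal.toReal_zero] at h3
  refine h3.congr fun m => ?_
  rw [Function.comp_apply, ENNReal.tsum_toReal_eq fun k => ENNReal.ofReal_ne_top]
  exact tsum_congr fun k => ENNReal.toReal_ofReal (norm_nonneg _)

/-- Continuity of the norms of the limit. -/
theorem fp_lim_cont (hQ : StmQ0) {ν : ℝ} {b : ℝ → Cf}
    (hb : ∀ τ : ℝ, 0 < τ → CSol ν (fun t => b (t + τ))) {q : ℝ} (hq : 0 < q) :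
    ContinuousOn (fun t => fp q (b t)) (Ioi 0) := by
  intro t ht
  have ht' : 0 < t := ht
  have hcs := hb (t / 2) (by positivity)
  have h0 : ContinuousOn (fun s => fp q ((fun s => b (s + t / 2)) s)) (Ici 0) :=
    fp_contOn hQ hq hcs.maj (h969.GS.LSol.cnt hcs.lsol)
  have h2 : ContinuousWithinAt (fun s => fp q (b s)) (Ici (t / 2)) t := by
    have h1 := h0 (t / 2) (by simp only [mem_Ici]; linarith)
    have h3 : ContinuousWithinAt (fun s => (fun s => fp q (b (s + t / 2))) (s - t / 2))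
        (Ici (t / 2)) t := by
      refine ContinuousWithinAt.comp (t := Ici 0) (g := fun s => fp q (b (s + t / 2))) ?_
        ((continuous_id.sub continuous_const).continuousWithinAt) fun s hs => ?_
      · rw [show t - t / 2 = t / 2 by ring]
        exact h1
      · have : t / 2 ≤ s := hs
        simp only [mem_Ici]
        linarith
    refine h3.congr (fun s _ => ?_) ?_ <;> simp
  exact (h2.continuousAt (Ici_mem_nhds (by linarith))).continuousWithinAt

/-- The norm of the limit in `L² L^q`. -/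
theorem lim_lq (hQ : StmQ0) {ν δ : ℝ} {φ : ℝ → ℝ} {Q : ℕ → ℝ} {c : Cf} {U : ℝ → Cf}
    {z : ℕ → Cf} {A : ℕ → ℝ → Cf} {ε : ℕ → ℝ} (hS : Seq ν δ φ Q c U z A ε)
    (hQ1 : ∀ n, 1 ≤ Q n) {b : ℝ → Cf}
    (hb : ∀ τ : ℝ, 0 < τ → CSol ν (fun t => b (t + τ)))
    (hlim : ∀ t, 0 < t → ∀ k, Tendsto (fun j => A (j + 1) t k) atTop (𝓝 (b t k))) (n : ℕ) :
    IntegrableOn (fun t => fp (2 * Q n) (b t) ^ (1 / Q n)) (Ioc 0 1) := by
  have hQ' := hQ
  obtain ⟨-, -, -, -, -, q6, q7, q8, -⟩ := hQ'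
  have hq0 : 0 < Q n := lt_of_lt_of_le one_pos (hQ1 n)
  set q : ℝ := 2 * Q n with hq
  have hqp : 0 < q := by positivity
  have hq1 : 1 ≤ q := by
    have := hQ1 n
    linarith
  have e12 : 1 / Q n = 2 / q := by
    rw [hq]
    field_simp
  have hfpn : ∀ (p : ℝ) (a : Cf), 0 ≤ fp p a := h744.WQ.fp_nonneg
  obtain ⟨K, hK0, hK⟩ := hS.lq n
  have hcn : ∀ m, Cnt (A m) := fun m => h969.GS.LSol.cnt (hS.tg m).toLSol
  have hl1 : ∀ m t, 0 ≤ t → L1 (A m t) := fun m t ht => Maj.l1 (hS.tg m).maj ht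
  obtain ⟨M, hM⟩ := (hS.tg (n + 1)).bd
  have hM0 : 0 ≤ M := by simpa using hM 0 le_rfl ∅
  have hbl : ∀ t, 0 < t → L1 (b t) := by
    intro t ht
    have h1 := Maj.l1 (hb (t / 2) (by positivity)).maj (t := t / 2) (by positivity)
    simpa using h1
  -- the increments
  set g : ℕ → ℝ → ℝ≥0∞ := fun i t =>
    ENNReal.ofReal (fp q (A (n + i + 2) t - A (n + i + 1) t) ^ (1 / q)) with hg
  have hgc : ∀ i, ContinuousOn (fun t => fp q (A (n + i + 2) t - A (n + i + 1) t) ^ (1 / q))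
      (Ici 0) := fun i =>
    (fp_contOn hQ hqp (Maj.sub (hS.tg _).maj (hS.tg _).maj)
      (Cnt.sub (hcn _) (hcn _))).rpow_const fun t _ => Or.inr (by positivity)
  have hgm : ∀ i, AEMeasurable (g i) (volume.restrict (Ioc (0 : ℝ) 1)) := fun i =>
    ENNReal.measurable_ofReal.comp_aemeasurable
      (ContinuousOn.aemeasurable ((hgc i).mono fun t ht => ht.1.le) measurableSet_Ioc)
  set ρ₂ : ℝ≥0∞ := ENNReal.ofReal (1 / 2) ^ (1 / (2 : ℝ)) with hρ₂
  have hρ₂1 : ρ₂ < 1 := rho_lt (by norm_num)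
  have hgq : ∀ i, Nq (volume.restrict (Ioc (0 : ℝ) 1)) 2 (g i)
      ≤ ENNReal.ofReal K ^ (1 / (2 : ℝ)) * ρ₂ ^ i := by
    intro i
    rw [Nq]
    have e1 : ∀ t, g i t ^ (2 : ℝ)
        = ENNReal.ofReal (fp q (A (n + i + 2) t - A (n + i + 1) t) ^ (1 / Q n)) := by
      intro t
      rw [hg]
      simp only
      rw [ENNReal.ofReal_rpow_of_nonneg (Real.rpow_nonneg (hfpn _ _) _) (by norm_num),
        Real.rpow_two, sq_root (hfpn _ _), e12]
    simp_rw [e1]
    refine (ENNReal.rpow_le_rpow (hK (n + i) (by omega)) (by norm_num)).trans ?_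
    rw [ENNReal.mul_rpow_of_nonneg _ _ (by norm_num), ofReal_half_pow_rpow]
    refine mul_le_mul' le_rfl ?_
    exact pow_le_pow_right_of_le_one' hρ₂1.le (by omega)
  set G : ℝ → ℝ≥0∞ := fun t => ENNReal.ofReal (3 * M) + ∑' i, g i t with hG
  have hGfin : Nq (volume.restrict (Ioc (0 : ℝ) 1)) 2 G < ⊤ := by
    calc Nq (volume.restrict (Ioc (0 : ℝ) 1)) 2 G
        ≤ Nq (volume.restrict (Ioc (0 : ℝ) 1)) 2 (fun _ => ENNReal.ofReal (3 * M))
          + ∑' i, Nq (volume.restrict (Ioc (0 : ℝ) 1)) 2 (g i) :=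
          (Nq_add (by norm_num) aemeasurable_const (AEMeasurable.tsum hgm)).trans
            (add_le_add le_rfl (Nq_tsum (by norm_num) hgm))
      _ ≤ Nq (volume.restrict (Ioc (0 : ℝ) 1)) 2 (fun _ => ENNReal.ofReal (3 * M))
          + ∑' i : ℕ, ENNReal.ofReal K ^ (1 / (2 : ℝ)) * ρ₂ ^ i :=
          add_le_add le_rfl (ENNReal.tsum_le_tsum hgq)
      _ < ⊤ := by
          refine ENNReal.add_lt_top.2 ⟨?_, (rho_sum hρ₂1 ?_).lt_top⟩
          · rw [Nq, lintegral_const, Measure.restrict_apply_univ, Real.volume_Ioc]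
            refine ENNReal.rpow_lt_top_of_nonneg (by norm_num) (ENNReal.mul_ne_top ?_
              ENNReal.ofReal_ne_top)
            exact ENNReal.rpow_ne_top_of_nonneg (by norm_num) ENNReal.ofReal_ne_top
          · exact ENNReal.rpow_ne_top_of_nonneg (by norm_num) ENNReal.ofReal_ne_top
  -- the bound of the limit
  have hle : ∀ t, 0 < t → ENNReal.ofReal (fp q (b t) ^ (1 / q)) ≤ G t := by
    intro t ht
    have h1 : ∀ i, ENNReal.ofReal (fp q (A (n + i + 1) t) ^ (1 / q)) ≤ G t := by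
      intro i
      have h2 : ENNReal.ofReal (fp q (A (n + i + 1) t) ^ (1 / q))
          ≤ ENNReal.ofReal (3 * M) + ∑ l ∈ Finset.range i, g l t := by
        induction i with
        | zero =>
          rw [Finset.range_zero, Finset.sum_empty, add_zero, add_zero]
          refine ENNReal.ofReal_le_ofReal ?_
          refine (fp_le_N0 q6 hqp (hl1 _ t ht.le)).trans ?_
          refine mul_le_mul_of_nonneg_left ?_ (by norm_num)
          rw [N0_eq]
          exact Real.tsum_le_of_sum_le (fun k => norm_nonneg _) fun B => hM t ht.le B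
        | succ i ih =>
          rw [Finset.sum_range_succ, ← add_assoc (ENNReal.ofReal (3 * M))]
          have e : A (n + (i + 1) + 1) t
              = A (n + i + 1) t + (A (n + i + 2) t - A (n + i + 1) t) := by
            rw [add_sub_cancel]
            rfl
          rw [e]
          have h3 := q7 q _ _ hq1 (hl1 (n + i + 1) t ht.le)
            ((hl1 (n + i + 2) t ht.le).sub (hl1 (n + i + 1) t ht.le))
          refine (ENNReal.ofReal_le_ofReal h3).trans ?_
          rw [ENNReal.ofReal_add (Real.rpow_nonneg (hfpn _ _) _)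
            (Real.rpow_nonneg (hfpn _ _) _)]
          exact add_le_add ih le_rfl
      exact h2.trans (add_le_add le_rfl (ENNReal.sum_le_tsum _))
    have h2 : Tendsto (fun i => fp q (A (n + i + 1) t)) atTop (𝓝 (fp q (b t))) := by
      refine q8 q (b t) hqp (hbl t ht) (fun i => A (n + i + 1) t) (fun i => hl1 _ t ht.le) ?_
      have h3 := lim_sum ht (hlim t ht) (fun m => hS.pt m t ht) hS.e0 hS.e1
      refine h3.comp (tendsto_atTop_mono (f := fun i => i) (fun i => ?_) tendsto_id)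
      omega
    have h3 : Tendsto (fun i => ENNReal.ofReal (fp q (A (n + i + 1) t) ^ (1 / q))) atTop
        (𝓝 (ENNReal.ofReal (fp q (b t) ^ (1 / q)))) :=
      (ENNReal.continuous_ofReal.tendsto _).comp
        (h2.rpow_const (Or.inr (by positivity)))
    exact le_of_tendsto' h3 h1
  have hfin : ∫⁻ t in Ioc (0 : ℝ) 1, ENNReal.ofReal (fp q (b t) ^ (1 / Q n)) < ⊤ := by
    have h1 : Nq (volume.restrict (Ioc (0 : ℝ) 1)) 2
        (fun t => ENNReal.ofReal (fp q (b t) ^ (1 / q))) < ⊤ := by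
      refine lt_of_le_of_lt (Nq_mono (by norm_num) ?_) hGfin
      filter_upwards [self_mem_ae_restrict measurableSet_Ioc] with t ht
      exact hle t ht.1
    rw [Nq] at h1
    have h2 := (ENNReal.rpow_lt_top_iff_of_pos (by norm_num)).1 h1
    refine lt_of_le_of_lt (le_of_eq ?_) h2
    refine lintegral_congr fun t => ?_
    rw [ENNReal.ofReal_rpow_of_nonneg (Real.rpow_nonneg (hfpn _ _) _) (by norm_num),
      Real.rpow_two, sq_root (hfpn _ _), e12]
  have hm : AEStronglyMeasurable (fun t => fp q (b t) ^ (1 / Q n))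
      (volume.restrict (Ioc (0 : ℝ) 1)) := by
    have h1 : ContinuousOn (fun t => fp q (b t) ^ (1 / Q n)) (Ioc 0 1) :=
      ((fp_lim_cont hQ hb hqp).mono fun t ht => ht.1).rpow_const fun t _ =>
        Or.inr (by positivity)
    exact h1.aestronglyMeasurable measurableSet_Ioc
  refine ⟨hm, ?_⟩
  rw [HasFiniteIntegral]
  refine lt_of_le_of_lt (le_of_eq ?_) hfin
  refine lintegral_congr fun t => ?_
  exact Real.enorm_eq_ofReal (Real.rpow_nonneg (hfpn _ _) _)

end Pool.Agent.Run7.h969.WQ
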