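import Pool.Agent.Run7.h969.WQ.DecQ

/-!
The sequence of the iteration and its properties.
-/

set_option autoImplicit false

open MeasureTheory Set Filter Topology
open scoped ENNReal

namespace Pool.Agent.Run7.h969.WQ

open H459R3.NS Pool.Agent.Run7.h782 Pool.Agent.Run7.h782.GD Pool.Agent.Run7.h782.GS
open Pool.Agent.Run7.h782.WS Pool.Agent.Run7.h744.WS Pool.Agent.Run7.h969.GS
open Pool.Agent.Run7 Pool.Agent.Run7.h308.WS Pool.Agent.Run7.h969.WS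
open Pool.Agent.Run7.h782.WQ

/-- The properties of the sequence. -/
structure Seq (ν δ : ℝ) (φ : ℝ → ℝ) (Q : ℕ → ℝ) (c : Cf) (U : ℝ → Cf) (z : ℕ → Cf)
    (A : ℕ → ℝ → Cf) (ε : ℕ → ℝ) : Prop where
  A0 : A 0 = U
  tg : ∀ n, Tg ν (A n)
  csol : ∀ n, CSol ν (A (n + 1))
  zl : ∀ n, L1 (z n)
  z0 : ∀ n, z n 0 = 0
  c0 : c 0 = 0
  cb : ∃ B : ℝ, 0 ≤ B ∧ ∀ k, ‖c k‖ ≤ len k * B
  wie : (Summable fun k => ‖c k‖) → ∀ n, ∑' k, ‖c k - z n k‖ ≤ (1 / 2) ^ n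
  stg : ∀ n, StpG φ ((1 / 2) ^ n) ((1 / 2) ^ n) (12 * 2 ^ n) (A n) (z n) (ε n) (A (n + 1))
  pt : ∀ n t, 0 < t → Sd (A (n + 1) t) (A n t) ≤ ENNReal.ofReal (ε n / Real.sqrt t)
  close : ∀ n t, ε n ≤ t → ∀ B : Finset K3, ∑ k ∈ B, ‖A (n + 1) t k - A n t k‖ ≤ ε n
  lim : ∀ k, Tendsto (fun j => A (j + 1) 0 k) atTop (𝓝 (c k))
  l2 : ∃ K : ℝ, 0 ≤ K ∧ ∀ n, ∫⁻ t in Ioc (0 : ℝ) 1, Sq2 (A (n + 2) t) (A (n + 1) t)
    ≤ ENNReal.ofReal K * ENNReal.ofReal ((1 / 2) ^ n)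
  lq : ∀ n, ∃ K : ℝ, 0 ≤ K ∧ ∀ j, n ≤ j →
    ∫⁻ t in Ioc (0 : ℝ) 1, ENNReal.ofReal (fp (2 * Q n) (A (j + 2) t - A (j + 1) t) ^ (1 / Q n))
      ≤ ENNReal.ofReal K * ENNReal.ofReal ((1 / 2) ^ j)
  e0 : ∀ n, 0 < ε n
  e1 : ∀ n, ε n ≤ (1 / 2) ^ n
  e2 : ∀ n, ε n ≤ δ * (1 / 2) ^ (n + 1)
  ea : Antitone ε

theorem geo_half (j : ℕ) : (1 / 4 : ℝ) ^ (j : ℝ) ≤ (1 / 2) ^ j := by
  rw [Real.rpow_natCast]
  exact pow_le_pow_left₀ (by norm_num) (by norm_num) j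

theorem the_half (j : ℕ) : (1 / 4 : ℝ) ^ (j ^ 2 + 1) ≤ (1 / 2) ^ j := by
  have h1 : ((1 : ℝ) / 4) ^ (j ^ 2 + 1) ≤ (1 / 4) ^ j :=
    pow_le_pow_of_le_one (by norm_num) (by norm_num) (by nlinarith [sq_nonneg ((j : ℤ) - 1)])
  exact h1.trans (pow_le_pow_left₀ (by norm_num) (by norm_num) j)

theorem outQ (hQ : StmQ0) (hStep : StmStepQ) (hRec : StmRecQ) {ν : ℝ} (hν : 0 < ν)
    {U : ℝ → Cf} (hU : Tg ν U) {Q : ℕ → ℝ} {c : Cf} {r : ℕ → Mf} (hr : DatQ Q c r)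
    {φ : ℝ → ℝ} (hφ : Gauge φ) {δ : ℝ} (hδ : 0 < δ) :
    ∃ (z : ℕ → Cf) (A : ℕ → ℝ → Cf) (ε : ℕ → ℝ), Seq ν δ φ Q c U z A ε := by
  have hQ' := hQ
  obtain ⟨q1, q2, q3, q4, -⟩ := hQ'
  have hQ1 := hr.one
  have hQ0 : ∀ n, 0 < Q n := fun n => lt_of_lt_of_le one_pos (hQ1 n)
  obtain ⟨C, hC, H⟩ := seqsQ hQ hStep
  obtain ⟨rr, hsy, hsu, hlim, hwie, hG, hbd⟩ := choiceQ hQ hr (G := Gs C ν Q)
    fun j => Gs_pos hC hν j
  obtain ⟨A, ε, hA0, hA, hst, hsg, he0, he1, he2, hea⟩ := H ν hν U hU rr hsy hsu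
    (fun j => (1 / 4) ^ j) (fun j => (1 / 4) ^ (j ^ 2 + 1)) (fun j => by positivity)
    (fun j => pow_le_one₀ (by norm_num) (by norm_num)) (fun j => by positivity)
    (expo Q) (expo_pos hQ0) φ hφ δ hδ
  have hdec := fun n e => dec (n := n) (e := e) hQ hC hν hQ1 hA hsu hst hG hRec
  have hdecs := fun n e => decs (n := n) (e := e) hQ hC hν hQ1 hA hsu hst hG hRec
  have hrr1 : ∀ m, R1 (rr m) := fun m => by
    obtain ⟨Z, hZ⟩ := hsu m
    exact r1_of_supp hZ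
  have hanti := fun n m => anti_r1 hQ hA hsu n m
  have hstr1 : ∀ n, R1 (str rr A n) := fun n =>
    h744.WQ.r1sub (h744.WQ.r1sub (hrr1 _) (hrr1 _)) (hanti _ _)
  have hpi := Real.pi_pos
  -- powers
  have pw : ∀ (B : ℝ) (j : ℕ) (s e : ℝ), 0 ≤ B → (B * (1 / 4 : ℝ) ^ (e * j)) ^ s
      = B ^ s * (1 / 4 : ℝ) ^ (e * s * j) := by
    intro B j s e hB
    rw [Real.mul_rpow hB (by positivity), ← Real.rpow_mul (by norm_num)]
    congr 2
    ring
  refine ⟨fun n => dvr (rr (n + 1)), A, ε, ?_⟩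
  refine
    { A0 := hA0
      tg := hA
      csol := fun n => (hst n).csol
      zl := fun n => ?_
      z0 := fun n => dvr_zero_mode _
      c0 := ?_
      cb := ?_
      wie := hwie
      stg := fun n => StpG.mono (hsg n) (the_half n)
      pt := fun n => (hst n).pt
      close := fun n => (hst n).close
      lim := ?_
      l2 := ?_
      lq := ?_
      e0 := he0
      e1 := he1
      e2 := he2
      ea := hea }
  · obtain ⟨Z, hZ⟩ := hsu (n + 1)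
    exact L1.of_supp (dvr_supp hZ)
  · have h1 := hlim 0
    simp_rw [dvr_zero_mode] at h1
    exact (tendsto_nhds_unique h1 tendsto_const_nhds).trans rfl
  · obtain ⟨B, hB⟩ := hbd 0
    have hB0 : 0 ≤ B := (h744.WQ.rp_nonneg _ _).trans (hB 0)
    refine ⟨24 * Real.pi * B ^ (1 / Q 0), by positivity, fun k => ?_⟩
    refine le_of_tendsto' ((hlim k).norm) fun j => ?_
    refine (dvr_le (hrr1 _) k).trans ?_
    have h1 := q3 1 (Q 0) (rr (j + 1)) one_pos (hQ1 0) (hrr1 _)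
    have h2 : rp (Q 0) (rr (j + 1)) ^ (1 / Q 0) ≤ B ^ (1 / Q 0) :=
      Real.rpow_le_rpow (h744.WQ.rp_nonneg _ _) (hB j) (by have := hQ0 0; positivity)
    have h3 := len_nonneg k
    calc 24 * Real.pi * len k * rp 1 (rr (j + 1))
        ≤ 24 * Real.pi * len k * B ^ (1 / Q 0) :=
          mul_le_mul_of_nonneg_left (h1.trans h2) (by positivity)
      _ = _ := by ring
  · intro k
    have h2 : Tendsto (fun j => A (j + 1) 0 k - dvr (rr (j + 1)) k) atTop (𝓝 0) := by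
      rw [tendsto_zero_iff_norm_tendsto_zero]
      obtain ⟨B, hB0, hB⟩ := hdec 0 (Q 0)
      have h3 : ∀ j, ‖A (j + 1) 0 k - dvr (rr (j + 1)) k‖
          ≤ 24 * Real.pi * len k * B ^ (1 / Q 0) * (1 / 2) ^ j := by
        intro j
        have h5 : Dv (A (j + 1) 0 - dvr (rr (j + 1))) :=
          dv_sub ((hA (j + 1)).div 0 le_rfl) (dvr_dv _)
        have h6 : (A (j + 1) 0 - dvr (rr (j + 1))) 0 = 0 := by
          rw [Pi.sub_apply, (hA (j + 1)).zero 0 le_rfl, dvr_zero_mode, sub_zero]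
        obtain ⟨-, -, -, -, -, -, -, -, -, -, q11⟩ := hQ
        have h7 := q11 _ h5 h6
        have h8 := dvr_le (hanti (j + 1) (j + 1)) k
        rw [h7] at h8
        have h9 := q3 1 (Q 0) _ one_pos (hQ1 0) (hanti (j + 1) (j + 1))
        have h10 : rp (Q 0) (anti (A (j + 1) 0 - dvr (rr (j + 1)))) ^ (1 / Q 0)
            ≤ B ^ (1 / Q 0) * (1 / 4 : ℝ) ^ (j : ℝ) := by
          refine (Real.rpow_le_rpow (h744.WQ.rp_nonneg _ _) (hB j)
            (by have := hQ0 0; positivity)).trans (le_of_eq ?_)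
          rw [pw _ _ _ _ hB0, mul_one_div_cancel (hQ0 0).ne', one_mul]
        have h11 := len_nonneg k
        have h12 : rp 1 (anti (A (j + 1) 0 - dvr (rr (j + 1))))
            ≤ B ^ (1 / Q 0) * (1 / 2) ^ j :=
          (h9.trans h10).trans (mul_le_mul_of_nonneg_left (geo_half j) (by positivity))
        refine h8.trans ?_
        calc 24 * Real.pi * len k * rp 1 (anti (A (j + 1) 0 - dvr (rr (j + 1))))
            ≤ 24 * Real.pi * len k * (B ^ (1 / Q 0) * (1 / 2) ^ j) :=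
              mul_le_mul_of_nonneg_left h12 (by positivity)
          _ = _ := by ring
      refine squeeze_zero (fun _ => norm_nonneg _) h3 ?_
      have hp : Tendsto (fun j : ℕ => ((1 : ℝ) / 2) ^ j) atTop (𝓝 0) :=
        tendsto_pow_atTop_nhds_zero_of_lt_one (by norm_num) (by norm_num)
      have := hp.const_mul (24 * Real.pi * len k * B ^ (1 / Q 0))
      rwa [mul_zero] at this
    have h3 := h2.add (hlim k)
    rw [zero_add] at h3
    refine h3.congr fun j => ?_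
    rw [sub_add_cancel]
  · obtain ⟨B, hB0, hB⟩ := hdecs 0 (Q 0)
    have hC2 := hC 2
    refine ⟨C 2 * (B ^ (1 / Q 0) + 1), by positivity, fun n => ?_⟩
    refine ((hst (n + 1)).l2).trans ?_
    rw [← ENNReal.ofReal_mul (by positivity)]
    refine ENNReal.ofReal_le_ofReal ?_
    have h9 := q3 1 (Q 0) _ one_pos (hQ1 0) (hstr1 (n + 1))
    have h10 : rp (Q 0) (str rr A (n + 1)) ^ (1 / Q 0) ≤ B ^ (1 / Q 0) * (1 / 4 : ℝ) ^ (n : ℝ) := by
      refine (Real.rpow_le_rpow (h744.WQ.rp_nonneg _ _) (hB n (Nat.zero_le _))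
        (by have := hQ0 0; positivity)).trans (le_of_eq ?_)
      rw [pw _ _ _ _ hB0, mul_one_div_cancel (hQ0 0).ne', one_mul]
    have h12 : rp 1 (str rr A (n + 1)) ≤ B ^ (1 / Q 0) * (1 / 2) ^ n :=
      (h9.trans h10).trans (mul_le_mul_of_nonneg_left (geo_half n) (by positivity))
    have h13 : (1 / 4 : ℝ) ^ ((n + 1) ^ 2 + 1) ≤ (1 / 2) ^ n :=
      (the_half (n + 1)).trans (pow_le_pow_of_le_one (by norm_num) (by norm_num) (Nat.le_succ n))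
    rw [mul_assoc]
    refine mul_le_mul_of_nonneg_left ?_ hC2.le
    rw [add_mul, one_mul]
    exact add_le_add h12 h13
  · intro n
    obtain ⟨B, hB0, hB⟩ := hdecs n (2 * Q n - 1)
    have hCq := hC (2 * Q n)
    have hq0 := hQ0 n
    have e1 : 2 / (2 * Q n) = 1 / Q n := by
      field_simp
    have e2 : 2 * Q n / 2 = Q n := by ring
    refine ⟨C (2 * Q n) * (1 / 4 : ℝ) ^ (1 / Q n - 1) * B ^ (1 / Q n) + 1, by positivity,
      fun j hj => ?_⟩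
    have h1 := (hst (j + 1)).lq (2 * Q n) (mem_expo2 Q (by omega)) (by have := hQ1 n; linarith)
    rw [e1, e2] at h1
    refine h1.trans ?_
    rw [← ENNReal.ofReal_mul (by positivity)]
    refine ENNReal.ofReal_le_ofReal ?_
    have h10 : rp (Q n) (str rr A (j + 1)) ^ (1 / Q n)
        ≤ B ^ (1 / Q n) * (1 / 4 : ℝ) ^ ((2 * Q n - 1) * (1 / Q n) * j) := by
      refine (Real.rpow_le_rpow (h744.WQ.rp_nonneg _ _) (hB j hj) (by positivity)).trans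
        (le_of_eq ?_)
      rw [pw _ _ _ _ hB0]
    have h11 : ((1 / 4 : ℝ) ^ (j + 1)) ^ (1 / Q n - 1)
        * (1 / 4 : ℝ) ^ ((2 * Q n - 1) * (1 / Q n) * j)
        = (1 / 4 : ℝ) ^ (1 / Q n - 1) * (1 / 4 : ℝ) ^ (j : ℝ) := by
      rw [kap, mul_assoc, ← Real.rpow_add (by norm_num)]
      congr 2
      field_simp
      ring
    have h13 : (1 / 4 : ℝ) ^ ((j + 1) ^ 2 + 1) ≤ (1 / 2) ^ j :=
      (the_half (j + 1)).trans (pow_le_pow_of_le_one (by norm_num) (by norm_num) (Nat.le_succ j))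
    rw [add_mul, one_mul]
    refine add_le_add ?_ h13
    calc C (2 * Q n) * ((1 / 4 : ℝ) ^ (j + 1)) ^ (1 / Q n - 1)
          * rp (Q n) (str rr A (j + 1)) ^ (1 / Q n)
        ≤ C (2 * Q n) * ((1 / 4 : ℝ) ^ (j + 1)) ^ (1 / Q n - 1)
          * (B ^ (1 / Q n) * (1 / 4 : ℝ) ^ ((2 * Q n - 1) * (1 / Q n) * j)) :=
          mul_le_mul_of_nonneg_left h10 (by positivity)
      _ = C (2 * Q n) * B ^ (1 / Q n) * (((1 / 4 : ℝ) ^ (j + 1)) ^ (1 / Q n - 1)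
          * (1 / 4 : ℝ) ^ ((2 * Q n - 1) * (1 / Q n) * j)) := by ring
      _ = C (2 * Q n) * (1 / 4 : ℝ) ^ (1 / Q n - 1) * B ^ (1 / Q n) * (1 / 4 : ℝ) ^ (j : ℝ) := by
          rw [h11]
          ring
      _ ≤ _ := mul_le_mul_of_nonneg_left (geo_half j) (by positivity)

end Pool.Agent.Run7.h969.WQ
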