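import Pool.Agent.Run7.h969.WQ.StpQ

/-!
The sequence of the iteration, with the norms of `L^q`.
-/

set_option autoImplicit false

open MeasureTheory Set Filter Topology
open scoped ENNReal

namespace Pool.Agent.Run7.h969.WQ

open H459R3.NS Pool.Agent.Run7.h782 Pool.Agent.Run7.h782.GD Pool.Agent.Run7.h782.GS
open Pool.Agent.Run7.h782.WS Pool.Agent.Run7.h744.WS Pool.Agent.Run7.h969.GS
open Pool.Agent.Run7 Pool.Agent.Run7.h308.WS Pool.Agent.Run7.h969.WS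
open Pool.Agent.Run7.h782.WQ

/-- The stress at one stage. -/
noncomputable def str (rr : ℕ → Mf) (A : ℕ → ℝ → Cf) (n : ℕ) : Mf :=
  rr (n + 1) - rr n - anti (A n 0 - dvr (rr n))

theorem herm_sub {a b : Cf} (ha : Herm a) (hb : Herm b) : Herm (a - b) := fun k i => by
  rw [Pi.sub_apply, Pi.sub_apply, Pi.sub_apply, Pi.sub_apply, ha, hb, map_sub]

theorem dv_sub {a b : Cf} (ha : Dv a) (hb : Dv b) : Dv (a - b) := fun k => by
  rw [Pi.sub_apply, sub_eq_add_neg, kd_add, ha, zero_add,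
    show -b k = (-1 : ℂ) • b k by rw [neg_one_smul], kd_smul, hb, mul_zero]

/-- The sequence, for a given sequence of stresses. -/
theorem seqsQ (hQ : StmQ0) (hStep : StmStepQ) : ∃ C : ℝ → ℝ, (∀ p, 0 < C p) ∧
    ∀ (ν : ℝ), 0 < ν → ∀ U : ℝ → Cf, Tg ν U →
    ∀ rr : ℕ → Mf, (∀ j, Sy (rr j)) → (∀ j, ∃ Z : Finset K3, ∀ i i', ∀ k ∉ Z, rr j i i' k = 0) →
    ∀ κ θ : ℕ → ℝ, (∀ j, 0 < κ j) → (∀ j, κ j ≤ 1) → (∀ j, 0 < θ j) → ∀ E : ℕ → Finset ℝ,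
    (∀ j, ∀ p ∈ E j, 0 < p) → ∀ φ : ℝ → ℝ, Gauge φ → ∀ δ : ℝ, 0 < δ →
    ∃ (A : ℕ → ℝ → Cf) (ε : ℕ → ℝ), A 0 = U ∧ (∀ n, Tg ν (A n)) ∧
      (∀ n, StpQ C ν (κ n) (θ n) (E n) (A n) (dvr (rr (n + 1))) (str rr A n) (ε n)
        (A (n + 1))) ∧
      (∀ n, StpG φ (θ n) ((1 / 2) ^ n) (12 * 2 ^ n) (A n) (dvr (rr (n + 1))) (ε n)
        (A (n + 1))) ∧
      (∀ n, 0 < ε n) ∧ (∀ n, ε n ≤ (1 / 2) ^ n) ∧ (∀ n, ε n ≤ δ * (1 / 2) ^ (n + 1)) ∧
      Antitone ε := by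
  classical
  have hQ' := hQ
  obtain ⟨-, -, -, -, -, -, -, -, q9, q10, q11⟩ := hQ
  obtain ⟨C, hC, H⟩ := stpq_of_step hQ' hStep
  refine ⟨C, hC, fun ν hν U hU rr hsy hsu κ θ hκ hκ1 hθ E hE φ hφ δ hδ => ?_⟩
  choose Z hZ using hsu
  obtain ⟨f, hf0, hP, hR⟩ := exists_rec (X := (ℝ → Cf) × ℝ)
    (fun x => Tg ν x.1 ∧ 0 < x.2)
    (fun n x y =>
      StpQ C ν (κ n) (θ n) (E n) x.1 (dvr (rr (n + 1)))
        (rr (n + 1) - rr n - anti (x.1 0 - dvr (rr n))) y.2 y.1 ∧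
      StpG φ (θ n) ((1 / 2) ^ n) (12 * 2 ^ n) x.1 (dvr (rr (n + 1))) y.2 y.1 ∧
      y.2 ≤ x.2 ∧ y.2 ≤ (1 / 2) ^ n ∧ y.2 ≤ δ * (1 / 2) ^ (n + 1))
    (U, 1) ⟨hU, one_pos⟩ (by
      rintro n ⟨a, e⟩ ⟨ha, he⟩
      replace ha : Tg ν a := ha
      have l1 : L1 (a 0 - dvr (rr n)) :=
        (Maj.l1 ha.maj le_rfl).sub (L1.of_supp (dvr_supp (hZ n)))
      have l2 := q9 _ (l1_div l1)
      have hh : Herm (a 0 - dvr (rr n)) := herm_sub (ha.herm 0 le_rfl) (dvr_herm (hsy n))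
      have hd : Dv (a 0 - dvr (rr n)) := dv_sub (ha.div 0 le_rfl) (dvr_dv _)
      have h0 : (a 0 - dvr (rr n)) 0 = 0 := by
        rw [Pi.sub_apply, ha.zero 0 le_rfl, dvr_zero_mode, sub_zero]
      have hr1 : R1 (rr (n + 1) - rr n - anti (a 0 - dvr (rr n))) :=
        h744.WQ.r1sub (h744.WQ.r1sub (r1_of_supp (hZ _)) (r1_of_supp (hZ _))) l2.1
      have hrs : Sy (rr (n + 1) - rr n - anti (a 0 - dvr (rr n))) :=
        sy_sub (sy_sub (hsy _) (hsy _)) (q10 _ hh)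
      have hrd : ∀ k, dvr (rr (n + 1) - rr n - anti (a 0 - dvr (rr n))) k
          = dvr (rr (n + 1)) k - a 0 k := by
        intro k
        rw [dvr_sub, dvr_sub, q11 _ hd h0]
        simp only [Pi.sub_apply]
        abel
      have H' := H ν hν (κ n) (hκ n) (hκ1 n) (E n) (hE n) a ha ((Z (n + 1)).erase 0)
        (dvr (rr (n + 1))) (Finset.notMem_erase _ _) (fun k hk => ?_) (dvr_herm (hsy _))
        (dvr_dv _) _ hrs hr1 hrd (θ n) (hθ n) φ hφ (12 * 2 ^ n) ((1 / 2) ^ n) (by positivity)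
        (by positivity)
      · have e1 : ∀ᶠ ε in 𝓝[>] (0 : ℝ), 0 < ε := self_mem_nhdsWithin
        have e2 : ∀ κ : ℝ, 0 < κ → ∀ᶠ ε in 𝓝[>] (0 : ℝ), ε ≤ κ := fun κ hκ =>
          nhdsWithin_le_nhds (ge_mem_nhds hκ)
        obtain ⟨ε, h1, h2, h3, h4, b, hb, hb'⟩ := (e1.and ((e2 e he).and ((e2 ((1 / 2) ^ n)
          (by positivity)).and ((e2 (δ * (1 / 2) ^ (n + 1)) (by positivity)).and H')))).exists
        exact ⟨(b, ε), ⟨hb.tg, h1⟩, hb, hb', h2, h3, h4⟩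
      · by_cases hk0 : k = 0
        · rw [hk0]
          exact dvr_zero_mode _
        · refine dvr_supp (hZ (n + 1)) k fun h => hk ?_
          exact Finset.mem_erase.2 ⟨hk0, h⟩)
  choose hst hsg h1 h2 h3 using hR
  refine ⟨fun n => (f n).1, fun n => (f (n + 1)).2, by simp [hf0], fun n => (hP n).1, hst, hsg,
    fun n => (hP (n + 1)).2, h2, h3, ?_⟩
  exact antitone_nat_of_succ_le fun n => h1 (n + 1)

/-- The choice of the sequence of stresses. -/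
theorem choiceQ (hQ : StmQ0) {Q : ℕ → ℝ} {c : Cf} {r : ℕ → Mf} (hr : DatQ Q c r)
    {G : ℕ → ℝ} (hG : ∀ j, 0 < G j) :
    ∃ rr : ℕ → Mf, (∀ j, Sy (rr j)) ∧
      (∀ j, ∃ Z : Finset K3, ∀ i i', ∀ k ∉ Z, rr j i i' k = 0) ∧
      (∀ k, Tendsto (fun j => dvr (rr (j + 1)) k) atTop (𝓝 (c k))) ∧
      ((Summable fun k => ‖c k‖) → ∀ j, ∑' k, ‖c k - dvr (rr (j + 1)) k‖ ≤ (1 / 2) ^ j) ∧
      (∀ j, ∀ n ≤ j, ∀ m ≤ j + 1, rp (Q n / 2 ^ m) (rr (j + 2) - rr (j + 1)) ≤ G j) ∧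
      ∀ n, ∃ B : ℝ, ∀ j, rp (Q n) (rr (j + 1)) ≤ B := by
  obtain ⟨q1, q2, q3, q4, -⟩ := hQ
  choose Z hZ using hr.supp
  have hr1 : ∀ m, R1 (r m) := fun m => r1_of_supp (hZ m)
  have hQ0 : ∀ n, 0 < Q n := fun n => lt_of_lt_of_le one_pos (hr.one n)
  -- one condition
  have one : ∀ (n m : ℕ) (ε : ℝ), 0 < ε → ∃ m₀, ∀ m' m'', m₀ ≤ m' → m₀ ≤ m'' →
      rp (Q n / 2 ^ m) (r m' - r m'') ≤ ε := by
    intro n m ε hε
    have hp : 0 < Q n / 2 ^ m := div_pos (hQ0 n) (by positivity)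
    have hpq : Q n / 2 ^ m ≤ Q n := div_le_self (hQ0 n).le (one_le_pow₀ (by norm_num))
    set t : ℝ := Q n / 2 ^ m / Q n with ht
    have ht0 : 0 < t := div_pos hp (hQ0 n)
    obtain ⟨m₀, h⟩ := hr.cau n (ε ^ (1 / t)) (by positivity)
    refine ⟨m₀, fun m' m'' h1 h2 => ?_⟩
    refine (q3 _ _ _ hp hpq (h744.WQ.r1sub (hr1 _) (hr1 _))).trans ?_
    have h3 := Real.rpow_le_rpow (h744.WQ.rp_nonneg _ _) (h m' m'' h1 h2) ht0.le
    refine h3.trans (le_of_eq ?_)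
    rw [← Real.rpow_mul hε.le, one_div, inv_mul_cancel₀ ht0.ne', Real.rpow_one]
  have two : ∀ j : ℕ, ∃ m₀ : ℕ, (∀ n ≤ j, ∀ m ≤ j + 1, ∀ m' m'', m₀ ≤ m' → m₀ ≤ m'' →
      rp (Q n / 2 ^ m) (r m' - r m'') ≤ G j) ∧
      ((Summable fun k => ‖c k‖) → ∀ m', m₀ ≤ m' → ∑' k, ‖c k - dvr (r m') k‖ ≤ (1 / 2) ^ j) := by
    intro j
    choose μ hμ using fun n m => one n m (G j) (hG j)
    obtain ⟨m₁, h1⟩ : ∃ m₁ : ℕ, (Summable fun k => ‖c k‖) → ∀ m', m₁ ≤ m' →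
        ∑' k, ‖c k - dvr (r m') k‖ ≤ (1 / 2) ^ j := by
      by_cases hs : Summable fun k => ‖c k‖
      · have h2 := (hr.wie hs).eventually (ge_mem_nhds (show (0 : ℝ) < (1 / 2) ^ j by positivity))
        obtain ⟨m₁, h3⟩ := eventually_atTop.1 h2
        refine ⟨m₁, fun _ m' hm' => ?_⟩
        refine le_trans (le_of_eq ?_) (h3 m' hm')
        exact tsum_congr fun k => norm_sub_rev _ _
      · exact ⟨0, fun h => absurd h hs⟩
    refine ⟨(∑ n ∈ Finset.range (j + 1), ∑ m ∈ Finset.range (j + 2), μ n m) + m₁, ?_, ?_⟩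
    · intro n hn m hm m' m'' h2 h3
      have h4 : μ n m ≤ ∑ n ∈ Finset.range (j + 1), ∑ m ∈ Finset.range (j + 2), μ n m := by
        refine (Finset.single_le_sum (f := fun m => μ n m) (fun _ _ => Nat.zero_le _)
          (Finset.mem_range.2 (show m < j + 2 by omega))).trans ?_
        exact Finset.single_le_sum (f := fun n => ∑ m ∈ Finset.range (j + 2), μ n m)
          (fun _ _ => Nat.zero_le _) (Finset.mem_range.2 (show n < j + 1 by omega))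
      exact hμ n m m' m'' (by omega) (by omega)
    · intro hs m' hm'
      exact h1 hs m' (by omega)
  choose N hN1 hN2 using two
  set μ : ℕ → ℕ := fun j => (∑ i ∈ Finset.range (j + 1), N i) + j with hμ
  have hμN : ∀ j, N j ≤ μ j := fun j =>
    (Finset.single_le_sum (f := fun i => N i) (fun _ _ => Nat.zero_le _)
      (Finset.mem_range.2 (Nat.lt_succ_self j))).trans (Nat.le_add_right _ _)
  have hμm : ∀ j, μ j ≤ μ (j + 1) := fun j => by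
    simp only [hμ]
    rw [Finset.sum_range_succ _ (j + 1)]
    omega
  have hμj : ∀ j, j ≤ μ j := fun j => Nat.le_add_left _ _
  have hμt : Tendsto μ atTop atTop := tendsto_atTop_mono hμj tendsto_id
  refine ⟨fun j => Nat.casesOn j 0 fun j => r (μ j), ?_, ?_, ?_, ?_, ?_, ?_⟩
  · intro j
    cases j with
    | zero => exact sy_zero
    | succ j => exact hr.sy _
  · intro j
    cases j with
    | zero => exact ⟨∅, fun i i' k _ => rfl⟩
    | succ j => exact ⟨Z (μ j), hZ _⟩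
  · intro k
    exact (hr.lim k).comp hμt
  · intro hs j
    exact hN2 j hs (μ j) (hμN j)
  · intro j n hn m hm
    exact hN1 j n hn m hm (μ (j + 1)) (μ j) ((hμN j).trans (hμm j)) (hμN j)
  · intro n
    obtain ⟨m₀, h⟩ := hr.cau n 1 one_pos
    have hfin : ∃ B : ℝ, ∀ m ≤ m₀, rp (Q n) (r m) ≤ B := by
      refine ⟨∑ m ∈ Finset.range (m₀ + 1), rp (Q n) (r m), fun m hm => ?_⟩
      exact Finset.single_le_sum (f := fun m => rp (Q n) (r m))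
        (fun m _ => h744.WQ.rp_nonneg _ _) (Finset.mem_range.2 (by omega))
    obtain ⟨B, hB⟩ := hfin
    refine ⟨B + 2 ^ Q n * (1 + B), fun j => ?_⟩
    have hB0 : 0 ≤ B := (h744.WQ.rp_nonneg _ _).trans (hB 0 (Nat.zero_le _))
    show rp (Q n) (r (μ j)) ≤ _
    have h2 : (0 : ℝ) ≤ 2 ^ Q n := by positivity
    rcases le_total (μ j) m₀ with h1 | h1
    · have := hB _ h1
      nlinarith [mul_nonneg h2 (by linarith : 0 ≤ 1 + B)]
    · have h3 := q1 (Q n) (r (μ j) - r m₀) (r m₀) (hQ0 n)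
        (h744.WQ.r1sub (hr1 _) (hr1 _)) (hr1 _)
      rw [sub_add_cancel] at h3
      have h4 := h (μ j) m₀ h1 le_rfl
      have h5 := hB m₀ le_rfl
      have h6 : (2 : ℝ) ^ Q n * (rp (Q n) (r (μ j) - r m₀) + rp (Q n) (r m₀))
          ≤ 2 ^ Q n * (1 + B) := mul_le_mul_of_nonneg_left (by linarith) h2
      linarith

end Pool.Agent.Run7.h969.WQ
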