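import Pool.Agent.Run7.h969.WQ.Elem

/-!
One step of the iteration, with the norms of `L^q`.
-/

set_option autoImplicit false

open MeasureTheory Set Filter Topology
open scoped ENNReal

namespace Pool.Agent.Run7.h969.WQ

open H459R3.NS Pool.Agent.Run7.h782 Pool.Agent.Run7.h782.GD Pool.Agent.Run7.h782.GS
open Pool.Agent.Run7.h782.WS Pool.Agent.Run7.h744.WS Pool.Agent.Run7.h969.GS
open Pool.Agent.Run7 Pool.Agent.Run7.h308.WS Pool.Agent.Run7.h969.WS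
open Pool.Agent.Run7.h782.WQ

/-- The conclusion of `StmStepQ`, as needed. -/
structure StpQ (C : ℝ → ℝ) (ν κ θ : ℝ) (E : Finset ℝ) (U : ℝ → Cf) (z : Cf) (r : Mf) (ε : ℝ)
    (a : ℝ → Cf) : Prop where
  csol : CSol ν a
  tg : Tg ν a
  rp0 : ∀ p ∈ E, rp p (anti (a 0 - z))
    ≤ C p * ν ^ (p / 2) * κ ^ (1 - p / 2) * rp (p / 2) r + θ
  lq : ∀ q ∈ E, 2 ≤ q → ∫⁻ t in Ioc (0 : ℝ) 1, ENNReal.ofReal (fp q (a t - U t) ^ (2 / q))
    ≤ ENNReal.ofReal (C q * κ ^ (2 / q - 1) * rp (q / 2) r ^ (2 / q) + θ)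
  pt : ∀ t, 0 < t → Sd (a t) (U t) ≤ ENNReal.ofReal (ε / Real.sqrt t)
  l2 : ∫⁻ t in Ioc (0 : ℝ) 1, Sq2 (a t) (U t) ≤ ENNReal.ofReal (C 2 * (rp 1 r + θ))
  close : ∀ t, ε ≤ t → ∀ A : Finset K3, ∑ k ∈ A, ‖a t k - U t k‖ ≤ ε

theorem StpG.mono {φ : ℝ → ℝ} {θ θ' η M : ℝ} {U : ℝ → Cf} {z : Cf} {ε : ℝ} {a : ℝ → Cf}
    (h : StpG φ θ η M U z ε a) (hθ : θ ≤ θ') : StpG φ θ' η M U z ε a := by
  obtain ⟨X, hX, hXε, hXi, ⟨E, hE0, hE, hE1⟩, h2⟩ := h.ex
  refine ⟨⟨X, hX, hXε, hXi, ⟨E, hE0, hE.trans (ENNReal.ofReal_le_ofReal hθ), hE1⟩, ?_⟩, h.time⟩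
  intro t ht
  obtain ⟨E, hE0, hE, hE1⟩ := h2 t ht
  exact ⟨E, hE0, hE.trans (ENNReal.ofReal_le_ofReal hθ), hE1⟩

/-- From `StmStepQ`. -/
theorem stpq_of_step (hQ : StmQ0) (hStep : StmStepQ) : ∃ C : ℝ → ℝ, (∀ p, 0 < C p) ∧
    ∀ (ν : ℝ), 0 < ν → ∀ κ : ℝ, 0 < κ → κ ≤ 1 → ∀ E : Finset ℝ, (∀ p ∈ E, 0 < p) →
    ∀ U : ℝ → Cf, Tg ν U →
    ∀ (Z : Finset K3) (z : Cf), (0 : K3) ∉ Z → (∀ k ∉ Z, z k = 0) → Herm z → Dv z →
    ∀ r : Mf, Sy r → R1 r → (∀ k, dvr r k = z k - U 0 k) →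
    ∀ θ : ℝ, 0 < θ → ∀ φ : ℝ → ℝ, Gauge φ → ∀ M η : ℝ, 0 < M → 0 < η →
      ∀ᶠ ε in 𝓝[>] (0 : ℝ), ∃ a : ℝ → Cf, StpQ C ν κ θ E U z r ε a ∧ StpG φ θ η M U z ε a := by
  obtain ⟨C₀, hC₀, H⟩ := hStep
  refine ⟨C₀, hC₀, fun ν hν κ hκ hκ1 E hE U hU Z z hZ0 hz hh hd r hr hr1 hrz θ hθ => ?_⟩
  obtain ⟨H', hH'⟩ := H ν hν κ hκ hκ1 E hE U hU Z z hZ0 hz hh hd r hr hr1 hrz θ hθ
  have hH0 : 0 ≤ H' := by
    obtain ⟨h, a, -, -, -, -, -, -, h6, -⟩ := hH' 1 one_pos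
    simpa using h6 0 le_rfl
  refine fun φ hφ M η hM hη => ?_
  filter_upwards [stage hφ hM hη hH0, self_mem_nhdsWithin] with ε hstg hε
  have hε' : 0 < ε := hε
  obtain ⟨h, a, hcs, htg, hal, hlq, hcont, hle, hH, ⟨e, he0, hez, hes, heθ, hee⟩, hE', hpt, hI,
    hI2, hcl⟩ := hH' ε hε'
  have hsU : Summable fun k => ‖z k - U 0 k‖ := by
    have h1 : L1 (U 0) := Maj.l1 hU.maj le_rfl
    exact (L1.of_supp hz).sub h1
  have hint := int_two (h969.GS.LSol.cnt htg.toLSol) (h969.GS.LSol.cnt hU.toLSol) hI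
  have hmj : Maj fun t => a t - U t := Maj.sub htg.maj hU.maj
  have hct : Cnt fun t => a t - U t :=
    Cnt.sub (h969.GS.LSol.cnt htg.toLSol) (h969.GS.LSol.cnt hU.toLSol)
  refine ⟨a, ⟨hcs, htg, hal, fun q hq hq2 => ?_, fun t ht => ?_, ?_, hcl⟩, ⟨?_, ?_⟩⟩
  · refine lint_of_int ?_ (fun t => Real.rpow_nonneg (h744.WQ.fp_nonneg _ _) _)
      (hlq q hq hq2)
    exact (fp_contOn hQ (by linarith) hmj hct).rpow_const fun t _ =>
      Or.inr (div_nonneg (by norm_num) (by linarith))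
  · exact Sd_le (hpt t ht)
  · exact int_sq2 (h969.GS.LSol.cnt htg.toLSol) (h969.GS.LSol.cnt hU.toLSol) hI2
  · set g : ℝ → ℝ := fun s => max (h s) 0 with hg
    have hgc : Continuous g := hcont.max continuous_const
    have hg0 : ∀ s, 0 ≤ g s := fun s => le_max_right _ _
    have hgh : ∀ s, h s ≤ g s := fun s => le_max_left _ _
    have hgle : ∀ s, 0 < s → g s ≤ ε / Real.sqrt s := fun s hs =>
      max_le (hle s hs) (div_nonneg hε'.le (Real.sqrt_nonneg _))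
    have hgH : ∀ T, 0 ≤ T → ∫ s in (0 : ℝ)..T, g s ^ 2 ≤ H' := fun T hT =>
      (intervalIntegral.integral_mono_on hT ((hgc.pow 2).intervalIntegrable _ _)
        ((hcont.pow 2).intervalIntegrable _ _) fun s _ => by
          rcases le_total (h s) 0 with h1 | h1
          · show max (h s) 0 ^ 2 ≤ h s ^ 2
            rw [max_eq_right h1]
            nlinarith [sq_nonneg (h s)]
          · show max (h s) 0 ^ 2 ≤ h s ^ 2
            rw [max_eq_left h1]).trans (hH T hT)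
    have hXle : ∀ s, 0 < s → ENNReal.ofReal (Real.sqrt s) * ENNReal.ofReal (g s)
        ≤ ENNReal.ofReal ε := by
      intro s hs
      have hss := Real.sqrt_pos.2 hs
      rw [← ENNReal.ofReal_mul hss.le]
      refine ENNReal.ofReal_le_ofReal ?_
      have h1 := hgle s hs
      rw [le_div_iff₀ hss] at h1
      linarith
    refine ⟨fun s => ENNReal.ofReal (Real.sqrt s) * ENNReal.ofReal (g s),
      (ENNReal.measurable_ofReal.comp Real.continuous_sqrt.measurable).mul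
        (ENNReal.measurable_ofReal.comp hgc.measurable), hXle, ?_, ?_, ?_⟩
    · exact hstg dss _ (dss_ae hXle) (sq_dss hgc hg0 hgH)
    · refine ⟨fun k => ENNReal.ofReal (e k), by simp [hez],
        XE_of he0 hes heθ, fun s hs => ?_⟩
      have h1 := Fb_of_le (x := fun k => ‖a 0 k - z k‖) (y := fun _ => 0) (e := e) (g := g s) hs
        (fun k => norm_nonneg _) (fun _ => le_rfl) he0 summable_zero hes (hg0 s) (fun A => by
          have h0 : ∑' k, GS.ht s k * (0 : ℝ) = 0 := by simp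
          rw [h0, zero_add]
          have := hee s hs.le A
          have := hgh s
          linarith)
      have h2 : Fb (fun _ : K3 => ENNReal.ofReal 0) s = 0 := by simp [Fb]
      rw [h2, zero_add] at h1
      exact h1
    · intro t ht
      obtain ⟨e, he0, hez, hes, heθ, hee⟩ := hE' t ht
      refine ⟨fun k => ENNReal.ofReal (e k), by simp [hez],
        XE_of he0 hes heθ, fun s hs => ?_⟩
      exact Fb_of_le (x := fun k => ‖a t k - U t k‖) (y := fun k => ‖z k - U 0 k‖) (e := e)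
        (g := g s) hs (fun k => norm_nonneg _) (fun k => norm_nonneg _) he0 hsU hes (hg0 s)
        (fun A => by
          have := hee s hs.le A
          have := hgh s
          linarith)
  · refine hstg mu1 _ (mu1_ae fun t ht => ?_) (sq_mu1 ?_ hint)
    · have hss := Real.sqrt_pos.2 ht.1
      calc ENNReal.ofReal (Real.sqrt t) * Sd (a t) (U t)
          ≤ ENNReal.ofReal (Real.sqrt t) * ENNReal.ofReal (ε / Real.sqrt t) :=
            mul_le_mul' le_rfl (Sd_le (hpt t ht.1))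
        _ = ENNReal.ofReal ε := by
            rw [← ENNReal.ofReal_mul hss.le, mul_div_cancel₀ _ hss.ne']
    · exact Sd_meas (h969.GS.LSol.cnt htg.toLSol) (h969.GS.LSol.cnt hU.toLSol)

end Pool.Agent.Run7.h969.WQ
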